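import Pool.Agent.Helper44.WT.Basic

/-!
# Pushing the spectrum to higher frequencies (Hahn–Banach + identity theorem)
-/

namespace Pool.Agent.Helper44.WT

open MeasureTheory Filter Set Topology
open scoped BoundedContinuousFunction

lemma exists_functional {B : Type*} [NormedAddCommGroup B] [NormedSpace ℂ B]
    (V : Submodule ℂ B) {x : B} (hx : x ∉ closure (V : Set B)) :
    ∃ l : B →L[ℂ] ℂ, (∀ v ∈ V, l v = 0) ∧ l x ≠ 0 := by
  have hconv : Convex ℝ (closure (V : Set B)) := by
    apply Convex.closure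
    have := (V.restrictScalars ℝ).convex
    exact this
  obtain ⟨f, u, hf, hu⟩ := RCLike.geometric_hahn_banach_closed_point (𝕜 := ℂ) hconv isClosed_closure hx
  have h0 : 0 < u := by simpa using hf 0 (subset_closure V.zero_mem)
  have hV : ∀ v ∈ V, f v = 0 := by
    intro v hv
    by_contra hne
    have h1 := hf (((u : ℂ) / f v) • v) (subset_closure (V.smul_mem _ hv))
    simp only [map_smul, smul_eq_mul] at h1
    rw [div_mul_cancel₀ _ hne] at h1
    simp at h1
  refine ⟨f, hV, fun h => ?_⟩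
  rw [h] at hu
  simp at hu
  linarith

/-- weighted exponential `t ↦ e^{λ t - ξ |t|}` -/
noncomputable def expB (ξ : ℝ) (lam : ℂ) : ℝ →ᵇ ℂ :=
  if h : |lam.re| ≤ ξ then
    BoundedContinuousFunction.ofNormedAddCommGroup
      (fun t : ℝ => Complex.exp (lam * t) * (Real.exp (-(ξ * |t|)) : ℂ))
      (by fun_prop) 1 (by
        intro t
        rw [norm_mul, Complex.norm_exp, Complex.norm_real, Real.norm_eq_abs, Real.abs_exp,
          ← Real.exp_add, Real.exp_le_one_iff]
        have h1 : (lam * t).re = lam.re * t := by simp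
        rw [h1]
        have h2 : lam.re * t ≤ |lam.re| * |t| := by rw [← abs_mul]; exact le_abs_self _
        nlinarith [abs_nonneg t])
  else 0

lemma expB_apply {ξ : ℝ} {lam : ℂ} (h : |lam.re| ≤ ξ) (t : ℝ) :
    expB ξ lam t = Complex.exp (lam * t) * (Real.exp (-(ξ * |t|)) : ℂ) := by
  simp [expB, h]

lemma norm_expB_le (ξ : ℝ) (lam : ℂ) : ‖expB ξ lam‖ ≤ 1 := by
  unfold expB
  split_ifs with h
  · exact BoundedContinuousFunction.norm_ofNormedAddCommGroup_le _ zero_le_one _
  · simp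

lemma sq_mul_exp_le {σ t : ℝ} (hσ : 0 < σ) : t ^ 2 * Real.exp (-(σ * |t|)) ≤ 2 / σ ^ 2 := by
  have h1 := Real.quadratic_le_exp_of_nonneg (x := σ * |t|) (by positivity)
  have h2 : t ^ 2 = |t| ^ 2 := (sq_abs t).symm
  rw [Real.exp_neg, h2, ← div_eq_mul_inv, div_le_div_iff₀ (Real.exp_pos _) (by positivity)]
  nlinarith [mul_nonneg hσ.le (abs_nonneg t)]

lemma abs_mul_exp_le {σ t : ℝ} (hσ : 0 < σ) : |t| * Real.exp (-(σ * |t|)) ≤ 1 / σ := by
  have h1 := Real.add_one_le_exp (σ * |t|)
  rw [Real.exp_neg, ← div_eq_mul_inv, div_le_div_iff₀ (Real.exp_pos _) (by positivity)]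
  nlinarith [mul_nonneg hσ.le (abs_nonneg t)]

/-- the derivative `t ↦ t e^{λ t - ξ |t|}` -/
noncomputable def expB' (ξ : ℝ) (lam : ℂ) : ℝ →ᵇ ℂ :=
  if h : |lam.re| < ξ then
    BoundedContinuousFunction.ofNormedAddCommGroup
      (fun t : ℝ => (t : ℂ) * (Complex.exp (lam * t) * (Real.exp (-(ξ * |t|)) : ℂ)))
      (by fun_prop) (1 / (ξ - |lam.re|)) (by
        intro t
        rw [norm_mul, norm_mul, Complex.norm_exp, Complex.norm_real, Complex.norm_real,
          Real.norm_eq_abs, Real.norm_eq_abs, Real.abs_exp, ← Real.exp_add]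
        have h1 : (lam * t).re = lam.re * t := by simp
        rw [h1]
        have h2 : lam.re * t ≤ |lam.re| * |t| := by rw [← abs_mul]; exact le_abs_self _
        refine le_trans ?_ (abs_mul_exp_le (σ := ξ - |lam.re|) (t := t) (by linarith))
        gcongr
        linarith)
  else 0

lemma hasDerivAt_expB {ξ : ℝ} {lam : ℂ} (h : |lam.re| < ξ) :
    HasDerivAt (expB ξ) (expB' ξ lam) lam := by
  set σ : ℝ := (ξ - |lam.re|) / 2 with hσ
  have hσ0 : 0 < σ := by rw [hσ]; linarith
  rw [hasDerivAt_iff_isLittleO_nhds_zero]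
  have hO : (fun k : ℂ => expB ξ (lam + k) - expB ξ lam - k • expB' ξ lam)
      =O[𝓝 0] fun k : ℂ => ‖k‖ ^ 2 := by
    refine Asymptotics.IsBigO.of_bound (2 / σ ^ 2) ?_
    have : ∀ᶠ k : ℂ in 𝓝 0, ‖k‖ < σ := by
      have := (continuous_norm (E := ℂ)).tendsto 0
      rw [norm_zero] at this
      exact this.eventually_lt_const hσ0
    filter_upwards [this] with k hk
    rw [BoundedContinuousFunction.norm_le (by positivity)]
    intro t
    have hk1 : |(lam + k).re| ≤ ξ := by
      rw [Complex.add_re]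
      have h1 := abs_add_le lam.re k.re
      have h2 := Complex.abs_re_le_norm k
      linarith
    have e1 : (expB ξ (lam + k) - expB ξ lam - k • expB' ξ lam) t =
        Complex.exp (lam * t) * (Real.exp (-(ξ * |t|)) : ℂ) *
          (Complex.exp (k * t) - ∑ m ∈ Finset.range 2, (k * t) ^ m / (m.factorial : ℂ)) := by
      simp only [BoundedContinuousFunction.sub_apply, BoundedContinuousFunction.smul_apply]
      rw [expB_apply hk1, expB_apply h.le]
      simp only [expB', h, dif_pos, BoundedContinuousFunction.coe_ofNormedAddCommGroup]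
      rw [add_mul, Complex.exp_add]
      simp [Finset.sum_range_succ]
      ring
    rw [e1, norm_mul, norm_mul, Complex.norm_exp, Complex.norm_real, Real.norm_eq_abs, Real.abs_exp]
    have h3 := Complex.norm_exp_sub_sum_le_norm_mul_exp (k * t) 2
    have h4 : ‖k * (t : ℂ)‖ = ‖k‖ * |t| := by
      rw [norm_mul, Complex.norm_real, Real.norm_eq_abs]
    rw [h4] at h3
    have h1 : (lam * t).re = lam.re * t := by simp
    rw [h1]
    have h2 : lam.re * t ≤ |lam.re| * |t| := by rw [← abs_mul]; exact le_abs_self _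
    calc Real.exp (lam.re * t) * Real.exp (-(ξ * |t|)) *
          ‖Complex.exp (k * t) - ∑ m ∈ Finset.range 2, (k * t) ^ m / (m.factorial : ℂ)‖
        ≤ Real.exp (|lam.re| * |t|) * Real.exp (-(ξ * |t|)) *
          ((‖k‖ * |t|) ^ 2 * Real.exp (σ * |t|)) := by
          gcongr
          refine h3.trans ?_
          gcongr
      _ = ‖k‖ ^ 2 * (t ^ 2 * Real.exp (-(σ * |t|))) := by
          rw [mul_pow, sq_abs]
          have : Real.exp (-(σ * |t|)) = Real.exp (|lam.re| * |t|) * Real.exp (-(ξ * |t|)) *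
              Real.exp (σ * |t|) := by
            rw [← Real.exp_add, ← Real.exp_add]
            congr 1
            rw [hσ]; ring
          rw [this]; ring
      _ ≤ ‖k‖ ^ 2 * (2 / σ ^ 2) := by gcongr; exact sq_mul_exp_le hσ0
      _ = 2 / σ ^ 2 * ‖‖k‖ ^ 2‖ := by rw [norm_pow, norm_norm]; ring
  refine hO.trans_isLittleO ?_
  have := Asymptotics.isLittleO_pow_id (𝕜 := ℝ) (n := 2) (by norm_num)
  have h5 : (fun k : ℂ => ‖k‖ ^ 2) =o[𝓝 0] fun k : ℂ => ‖k‖ := by
    have h6 : Tendsto (fun k : ℂ => ‖k‖) (𝓝 0) (𝓝 0) := by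
      have := (continuous_norm (E := ℂ)).tendsto 0
      rwa [norm_zero] at this
    exact this.comp_tendsto h6
  exact h5.trans_isBigO (Asymptotics.isBigO_refl _ _).norm_left


/-- embedding as `n`-th component (underlying function) -/
noncomputable def embFun (n : ℕ) (f : ℝ →ᵇ ℂ) : ℕ × ℝ →ᵇ ℂ :=
  BoundedContinuousFunction.ofNormedAddCommGroup
    (fun p : ℕ × ℝ => (if p.1 = n then (1 : ℂ) else 0) * f p.2)
    ((continuous_of_discreteTopology (f := fun m : ℕ => if m = n then (1 : ℂ) else 0)).comp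
      continuous_fst |>.mul (f.continuous.comp continuous_snd)) ‖f‖ (by
      intro p
      rw [norm_mul]
      have h1 : ‖(if p.1 = n then (1 : ℂ) else 0)‖ ≤ 1 := by split_ifs <;> simp
      calc _ ≤ 1 * ‖f p.2‖ := by gcongr
        _ ≤ ‖f‖ := by rw [one_mul]; exact f.norm_coe_le_norm _)

lemma embFun_apply (n : ℕ) (f : ℝ →ᵇ ℂ) (p : ℕ × ℝ) :
    embFun n f p = (if p.1 = n then (1 : ℂ) else 0) * f p.2 := rfl

lemma norm_embFun_le (n : ℕ) (f : ℝ →ᵇ ℂ) : ‖embFun n f‖ ≤ ‖f‖ :=
  BoundedContinuousFunction.norm_ofNormedAddCommGroup_le _ (norm_nonneg _) _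

/-- embedding as `n`-th component -/
noncomputable def emb (n : ℕ) : (ℝ →ᵇ ℂ) →L[ℂ] (ℕ × ℝ →ᵇ ℂ) :=
  LinearMap.mkContinuous
    { toFun := embFun n
      map_add' := by
        intro f g
        ext p
        simp only [embFun_apply, BoundedContinuousFunction.add_apply, mul_add]
      map_smul' := by
        intro c f
        ext p
        simp only [embFun_apply, BoundedContinuousFunction.smul_apply, smul_eq_mul,
          RingHom.id_apply, mul_left_comm] }
    1 (by
      intro f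
      rw [one_mul]
      exact norm_embFun_le n f)

lemma emb_apply (n : ℕ) (f : ℝ →ᵇ ℂ) (p : ℕ × ℝ) :
    emb n f p = (if p.1 = n then (1 : ℂ) else 0) * f p.2 := rfl

lemma norm_emb_le (n : ℕ) (f : ℝ →ᵇ ℂ) : ‖emb n f‖ ≤ ‖f‖ := norm_embFun_le n f

/-- the analytic curve `λ ↦ ((2z(λ))^n e^{λt - ξ|t|})_{n,t}` -/
noncomputable def curve (z : ℂ → ℂ) (ξ : ℝ) (lam : ℂ) : ℕ × ℝ →ᵇ ℂ :=
  ∑' n : ℕ, (2 * z lam) ^ n • emb n (expB ξ lam)

lemma norm_term_le {z : ℂ → ℂ} {ξ : ℝ} {lam : ℂ} (h : ‖z lam‖ ≤ 1 / 4) (n : ℕ) :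
    ‖(2 * z lam) ^ n • emb n (expB ξ lam)‖ ≤ (1 / 2 : ℝ) ^ n := by
  rw [norm_smul, norm_pow, norm_mul]
  have h1 : ‖(2 : ℂ)‖ * ‖z lam‖ ≤ 1 / 2 := by
    rw [show ‖(2 : ℂ)‖ = 2 by simp]; linarith
  calc (‖(2 : ℂ)‖ * ‖z lam‖) ^ n * ‖emb n (expB ξ lam)‖ ≤ (1 / 2 : ℝ) ^ n * 1 := by
        gcongr
        exact (norm_emb_le _ _).trans (norm_expB_le _ _)
    _ = _ := mul_one _

lemma summable_terms {z : ℂ → ℂ} {ξ : ℝ} {lam : ℂ} (h : ‖z lam‖ ≤ 1 / 4) :
    Summable fun n : ℕ => (2 * z lam) ^ n • emb n (expB ξ lam) :=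
  Summable.of_norm_bounded (summable_geometric_of_lt_one (by norm_num) (by norm_num))
    (norm_term_le h)

lemma curve_apply {z : ℂ → ℂ} {ξ : ℝ} {lam : ℂ} (h : ‖z lam‖ ≤ 1 / 4) (hr : |lam.re| ≤ ξ)
    (n : ℕ) (t : ℝ) :
    curve z ξ lam (n, t) =
      (2 * z lam) ^ n * (Complex.exp (lam * t) * (Real.exp (-(ξ * |t|)) : ℂ)) := by
  have h1 : curve z ξ lam (n, t) =
      BoundedContinuousFunction.evalCLM ℂ (n, t) (curve z ξ lam) := rfl
  rw [h1, curve, ContinuousLinearMap.map_tsum _ (summable_terms h), tsum_eq_single n]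
  · simp [BoundedContinuousFunction.evalCLM_apply, emb_apply, expB_apply hr]
  · intro m hm
    simp [BoundedContinuousFunction.evalCLM_apply, emb_apply, hm.symm]

lemma differentiableOn_curve {z : ℂ → ℂ} {ξ : ℝ} {U : Set ℂ} (hU : IsOpen U)
    (hz : DifferentiableOn ℂ z U) (hz4 : ∀ lam ∈ U, ‖z lam‖ ≤ 1 / 4)
    (hre : ∀ lam ∈ U, |lam.re| < ξ) : DifferentiableOn ℂ (curve z ξ) U := by
  unfold curve
  refine Complex.differentiableOn_tsum_of_summable_norm
    (summable_geometric_of_lt_one (r := (1 / 2 : ℝ)) (by norm_num) (by norm_num)) ?_ hU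
    (fun n w hw => norm_term_le (hz4 w hw) n)
  intro n
  have h1 : DifferentiableOn ℂ (expB ξ) U := fun w hw =>
    (hasDerivAt_expB (hre w hw)).differentiableAt.differentiableWithinAt
  have h2 : DifferentiableOn ℂ (fun w => emb n (expB ξ w)) U :=
    (emb n).differentiable.comp_differentiableOn h1
  exact ((hz.const_mul 2).pow n).smul h2


lemma integral_curve_apply {z : ℂ → ℂ} {ξ : ℝ} {a b : ℝ} (hab : a ≤ b)
    (hz4 : ∀ y ∈ Icc a b, ‖z (y * Complex.I)‖ ≤ 1 / 4) (hξ : 0 ≤ ξ)
    (hc : ContinuousOn (fun y : ℝ => curve z ξ (y * Complex.I)) (Icc a b))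
    {C : ℝ → ℂ} (hC : Continuous C) (n : ℕ) (t : ℝ) :
    (∫ y in a..b, C y • curve z ξ (y * Complex.I)) (n, t) =
      (2 ^ n * (Real.exp (-(ξ * |t|)) : ℂ)) * G a b (fun y => C y * z (y * Complex.I) ^ n) t := by
  have hint : IntervalIntegrable (fun y : ℝ => C y • curve z ξ (y * Complex.I)) volume a b := by
    apply ContinuousOn.intervalIntegrable
    rw [uIcc_of_le hab]
    exact hC.continuousOn.smul hc
  have h1 := ContinuousLinearMap.intervalIntegral_comp_comm
    (BoundedContinuousFunction.evalCLM ℂ (n, t) : (ℕ × ℝ →ᵇ ℂ) →L[ℂ] ℂ) hint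
  have h2 : (∫ y in a..b, C y • curve z ξ (y * Complex.I)) (n, t) =
      (BoundedContinuousFunction.evalCLM ℂ (n, t) : (ℕ × ℝ →ᵇ ℂ) →L[ℂ] ℂ)
        (∫ y in a..b, C y • curve z ξ (y * Complex.I)) := rfl
  rw [h2, ← h1, G, ← intervalIntegral.integral_const_mul]
  refine intervalIntegral.integral_congr fun y hy => ?_
  rw [uIcc_of_le hab] at hy
  simp only [BoundedContinuousFunction.evalCLM_apply, BoundedContinuousFunction.smul_apply,
    smul_eq_mul]
  rw [curve_apply (hz4 y hy) (by simpa using hξ)]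
  rw [mul_pow]
  have : (y : ℂ) * Complex.I * t = ((y * t : ℝ) : ℂ) * Complex.I := by push_cast; ring
  rw [this]
  ring

theorem approx {z : ℂ → ℂ} {O : Set ℂ} (hO : IsOpen O) (hz : DifferentiableOn ℂ z O)
    {ξ : ℝ} (hξ : 0 < ξ) {lo hi a b a' b' : ℝ} (hab : a ≤ b) (hab' : a' < b')
    (h1 : lo ≤ a) (h2 : b ≤ hi) (h3 : lo ≤ a') (h4 : b' ≤ hi)
    (hseg : ∀ y ∈ Icc lo hi, ((y : ℂ) * Complex.I) ∈ O)
    (hz4 : ∀ y ∈ Icc lo hi, ‖z (y * Complex.I)‖ < 1 / 4)
    {C : ℝ → ℂ} (hC : Continuous C) {η : ℝ} (hη : 0 < η) :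
    ∃ C' : ℝ → ℂ, Continuous C' ∧ ∀ n : ℕ, ∀ t : ℝ,
      2 ^ n * ‖G a b (fun y => C y * z (y * Complex.I) ^ n) t -
        G a' b' (fun y => C' y * z (y * Complex.I) ^ n) t‖ ≤ η * Real.exp (ξ * |t|) := by
  classical
  -- the open set
  set S : Set ℂ := (fun y : ℝ => (y : ℂ) * Complex.I) '' Icc lo hi with hS
  have hScomp : IsCompact S := isCompact_Icc.image (by fun_prop)
  have hSconv : Convex ℝ S := by
    have hl : (fun y : ℝ => (y : ℂ) * Complex.I) =
        (LinearMap.toSpanSingleton ℝ ℂ Complex.I : ℝ → ℂ) := by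
      funext y; simp [LinearMap.toSpanSingleton]
    rw [hS, hl]
    exact (convex_Icc lo hi).linear_image _
  set O' : Set ℂ := (O ∩ z ⁻¹' Metric.ball 0 (1 / 4)) ∩ {w | |w.re| < ξ} with hO'
  have hO'open : IsOpen O' := by
    refine (hz.continuousOn.isOpen_inter_preimage hO Metric.isOpen_ball).inter ?_
    exact isOpen_lt (by fun_prop) continuous_const
  have hSO' : S ⊆ O' := by
    rintro w ⟨y, hy, rfl⟩
    refine ⟨⟨hseg y hy, ?_⟩, ?_⟩
    · simpa using hz4 y hy
    · simpa using hξ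
  obtain ⟨δ, hδ, hδU⟩ := hScomp.exists_thickening_subset_open hO'open hSO'
  set U := Metric.thickening δ S with hU
  have hUopen : IsOpen U := Metric.isOpen_thickening
  have hUconv : Convex ℝ U := hSconv.thickening δ
  have hUz : DifferentiableOn ℂ z U := hz.mono fun w hw => (hδU hw).1.1
  have hUz4 : ∀ w ∈ U, ‖z w‖ ≤ 1 / 4 := fun w hw => by
    have := (hδU hw).1.2
    simp at this
    linarith
  have hUre : ∀ w ∈ U, |w.re| < ξ := fun w hw => (hδU hw).2
  have hd := differentiableOn_curve hUopen hUz hUz4 hUre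
  have hmem : ∀ y ∈ Icc lo hi, ((y : ℂ) * Complex.I) ∈ U := fun y hy =>
    Metric.self_subset_thickening hδ S ⟨y, hy, rfl⟩
  have hcont : ContinuousOn (fun y : ℝ => curve z ξ (y * Complex.I)) (Icc lo hi) :=
    hd.continuousOn.comp (by fun_prop) hmem
  have hsub : Icc a b ⊆ Icc lo hi := Icc_subset_Icc h1 h2
  have hsub' : Icc a' b' ⊆ Icc lo hi := Icc_subset_Icc h3 h4
  have hint : ∀ D : ℝ → ℂ, Continuous D →
      IntervalIntegrable (fun y : ℝ => D y • curve z ξ (y * Complex.I)) volume a' b' := by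
    intro D hD
    apply ContinuousOn.intervalIntegrable
    rw [uIcc_of_le hab'.le]
    exact hD.continuousOn.smul (hcont.mono hsub')
  -- the submodule
  let V : Submodule ℂ (ℕ × ℝ →ᵇ ℂ) :=
    { carrier := {w | ∃ D : ℝ → ℂ, Continuous D ∧ w = ∫ y in a'..b', D y • curve z ξ (y * Complex.I)}
      add_mem' := by
        rintro _ _ ⟨D, hD, rfl⟩ ⟨D', hD', rfl⟩
        refine ⟨fun y => D y + D' y, hD.add hD', ?_⟩
        rw [← intervalIntegral.integral_add (hint D hD) (hint D' hD')]
        simp only [add_smul]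
      zero_mem' := ⟨fun _ => 0, continuous_const, by simp⟩
      smul_mem' := by
        rintro c _ ⟨D, hD, rfl⟩
        refine ⟨fun y => c * D y, continuous_const.mul hD, ?_⟩
        rw [← intervalIntegral.integral_smul]
        simp only [mul_smul] }
  set x : ℕ × ℝ →ᵇ ℂ := ∫ y in a..b, C y • curve z ξ (y * Complex.I) with hx
  have hxV : x ∈ closure (V : Set (ℕ × ℝ →ᵇ ℂ)) := by
    by_contra hcon
    obtain ⟨l, hlV, hlx⟩ := exists_functional V hcon
    apply hlx
    -- scalar analytic function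
    set ψ : ℂ → ℂ := fun w => l (curve z ξ w) with hψ
    have hψd : DifferentiableOn ℂ ψ U := l.differentiable.comp_differentiableOn hd
    have hψc : ContinuousOn (fun y : ℝ => ψ (y * Complex.I)) (Icc lo hi) :=
      hψd.continuousOn.comp (by fun_prop) hmem
    have hzero : ∀ y ∈ Icc a' b', ψ (y * Complex.I) = 0 := by
      set D : ℝ → ℂ := IccExtend hab'.le
        (fun y : Icc a' b' => (starRingEnd ℂ) (ψ ((y : ℝ) * Complex.I))) with hD
      have hDc : Continuous D := by
        apply Continuous.Icc_extend'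
        have := (hψc.mono hsub').domRestrict
        exact Complex.continuous_conj.comp this
      have hDe : ∀ y ∈ Icc a' b', D y = (starRingEnd ℂ) (ψ (y * Complex.I)) := fun y hy => by
        rw [hD, IccExtend_of_mem _ _ hy]
      have h5 := hlV (∫ y in a'..b', D y • curve z ξ (y * Complex.I)) ⟨D, hDc, rfl⟩
      rw [← ContinuousLinearMap.intervalIntegral_comp_comm _ (hint D hDc)] at h5
      have h6 : ∫ y in a'..b', l (D y • curve z ξ (y * Complex.I)) =
          ((∫ y in a'..b', ‖ψ (y * Complex.I)‖ ^ 2 : ℝ) : ℂ) := by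
        rw [← intervalIntegral.integral_ofReal]
        refine intervalIntegral.integral_congr fun y hy => ?_
        rw [uIcc_of_le hab'.le] at hy
        simp only [map_smul, smul_eq_mul]
        rw [hDe y hy, mul_comm]
        change ψ (y * Complex.I) * _ = _
        rw [Complex.mul_conj']
        push_cast
        rfl
      rw [h6] at h5
      have h7 : ∫ y in a'..b', ‖ψ (y * Complex.I)‖ ^ 2 = 0 := by exact_mod_cast h5
      intro y hy
      by_contra hne
      have h8 : 0 < ∫ y in a'..b', ‖ψ (y * Complex.I)‖ ^ 2 := by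
        apply intervalIntegral.integral_pos hab'
        · exact ((hψc.mono hsub').norm).pow 2
        · intro y _; positivity
        · exact ⟨y, hy, by positivity⟩
      linarith
    have hanal : AnalyticOnNhd ℂ ψ U := hψd.analyticOnNhd hUopen
    have hm0 : ((a' : ℂ) * Complex.I) ∈ U := hmem a' (hsub' (left_mem_Icc.2 hab'.le))
    have hfreq : ∃ᶠ w in 𝓝[≠] ((a' : ℂ) * Complex.I), ψ w = 0 := by
      have htend : Tendsto (fun y : ℝ => (y : ℂ) * Complex.I) (𝓝[>] a')
          (𝓝[≠] ((a' : ℂ) * Complex.I)) := by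
        apply tendsto_nhdsWithin_of_tendsto_nhds_of_eventually_within
        · have : Continuous fun y : ℝ => (y : ℂ) * Complex.I := by fun_prop
          exact (this.tendsto a').mono_left nhdsWithin_le_nhds
        · filter_upwards [self_mem_nhdsWithin] with y hy
          simp only [mem_compl_iff, mem_singleton_iff]
          intro h
          have := mul_right_cancel₀ Complex.I_ne_zero h
          have : y = a' := by exact_mod_cast this
          rw [this] at hy
          exact lt_irrefl _ (mem_Ioi.1 hy)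
      apply htend.frequently
      apply Eventually.frequently
      have : Ioc a' b' ∈ 𝓝[>] a' := Ioc_mem_nhdsGT hab'
      filter_upwards [this] with y hy
      exact hzero y ⟨hy.1.le, hy.2⟩
    have hall := hanal.eqOn_zero_of_preconnected_of_frequently_eq_zero
      hUconv.isPreconnected hm0 hfreq
    have hint2 : IntervalIntegrable (fun y : ℝ => C y • curve z ξ (y * Complex.I)) volume a b := by
      apply ContinuousOn.intervalIntegrable
      rw [uIcc_of_le hab]
      exact hC.continuousOn.smul (hcont.mono hsub)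
    rw [hx, ← ContinuousLinearMap.intervalIntegral_comp_comm _ hint2]
    rw [intervalIntegral.integral_congr (g := fun _ => (0 : ℂ))]
    · simp
    · intro y hy
      rw [uIcc_of_le hab] at hy
      have := hall (hmem y (hsub hy))
      simp only [Pi.zero_apply] at this
      simp only [map_smul, smul_eq_mul]
      have h9 : l (curve z ξ (y * Complex.I)) = 0 := this
      rw [h9, mul_zero]
  obtain ⟨w, ⟨D, hD, rfl⟩, hw⟩ := Metric.mem_closure_iff.1 hxV η hη
  refine ⟨D, hD, fun n t => ?_⟩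
  have h10 : ‖(x - ∫ y in a'..b', D y • curve z ξ (y * Complex.I)) (n, t)‖ ≤ η :=
    (BoundedContinuousFunction.norm_coe_le_norm _ _).trans (by rw [← dist_eq_norm]; exact hw.le)
  rw [BoundedContinuousFunction.sub_apply, hx,
    integral_curve_apply hab (fun y hy => (hz4 y (hsub hy)).le) hξ.le (hcont.mono hsub) hC,
    integral_curve_apply hab'.le (fun y hy => (hz4 y (hsub' hy)).le) hξ.le (hcont.mono hsub') hD,
    ← mul_sub, norm_mul, norm_mul, norm_pow, Complex.norm_real, Real.norm_eq_abs, Real.abs_exp,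
    show ‖(2 : ℂ)‖ = 2 by simp, Real.exp_neg] at h10
  have h11 := mul_le_mul_of_nonneg_right h10 (Real.exp_pos (ξ * |t|)).le
  have h12 : Real.exp (ξ * |t|) ≠ 0 := (Real.exp_pos _).ne'
  refine le_trans (le_of_eq ?_) h11
  have h13 : ∀ A E N : ℝ, E ≠ 0 → A * N = A * E⁻¹ * N * E := by
    intro A E N hE
    have : A * E⁻¹ * N * E = A * N * (E⁻¹ * E) := by ring
    rw [this, inv_mul_cancel₀ hE, mul_one]
  exact h13 _ _ _ h12

end Pool.Agent.Helper44.WT
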