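import Mathlib

/-!
# Weighted translates: spectral superpositions `G a b C t = ∫_a^b C(y) e^{iyt} dy`
-/

namespace Pool.Agent.Helper44.WT

open MeasureTheory Filter Set Topology

/-- superposition of the characters `e^{iyt}`, `y ∈ [a,b]`, with density `C` -/
noncomputable def G (a b : ℝ) (C : ℝ → ℂ) (t : ℝ) : ℂ :=
  ∫ y in a..b, C y * Complex.exp ((y * t : ℝ) * Complex.I)

lemma norm_expI (x : ℝ) : ‖Complex.exp ((x : ℝ) * Complex.I)‖ = 1 := by
  rw [Complex.norm_exp_ofReal_mul_I]

lemma continuous_kernel (t : ℝ) :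
    Continuous fun y : ℝ => Complex.exp ((y * t : ℝ) * Complex.I) := by
  fun_prop

lemma intervalIntegrable_kernel {C : ℝ → ℂ} (hC : Continuous C) (a b t : ℝ) :
    IntervalIntegrable (fun y => C y * Complex.exp ((y * t : ℝ) * Complex.I)) volume a b :=
  (hC.mul (continuous_kernel t)).intervalIntegrable a b

lemma norm_G_le {a b : ℝ} (hab : a ≤ b) {C : ℝ → ℂ} (t : ℝ) :
    ‖G a b C t‖ ≤ ∫ y in a..b, ‖C y‖ := by
  unfold G
  refine (intervalIntegral.norm_integral_le_integral_norm hab).trans (le_of_eq ?_)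
  refine intervalIntegral.integral_congr fun y _ => ?_
  simp only [norm_mul, norm_expI, mul_one]

lemma norm_G_le_of_le {a b : ℝ} (hab : a ≤ b) {C : ℝ → ℂ} {D : ℝ → ℝ}
    (hC : Continuous C) (hD : Continuous D) (h : ∀ y ∈ Icc a b, ‖C y‖ ≤ D y) (t : ℝ) :
    ‖G a b C t‖ ≤ ∫ y in a..b, D y :=
  (norm_G_le hab t).trans
    (intervalIntegral.integral_mono_on hab (hC.norm.intervalIntegrable a b)
      (hD.intervalIntegrable a b) h)

lemma G_add (a b : ℝ) {C D : ℝ → ℂ} (hC : Continuous C) (hD : Continuous D) (t : ℝ) :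
    G a b (fun y => C y + D y) t = G a b C t + G a b D t := by
  unfold G
  rw [← intervalIntegral.integral_add (intervalIntegrable_kernel hC a b t)
    (intervalIntegrable_kernel hD a b t)]
  simp only [add_mul]

lemma G_sub (a b : ℝ) {C D : ℝ → ℂ} (hC : Continuous C) (hD : Continuous D) (t : ℝ) :
    G a b (fun y => C y - D y) t = G a b C t - G a b D t := by
  unfold G
  rw [← intervalIntegral.integral_sub (intervalIntegrable_kernel hC a b t)
    (intervalIntegrable_kernel hD a b t)]
  simp only [sub_mul]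

lemma G_const_mul (a b : ℝ) (c : ℂ) (C : ℝ → ℂ) (t : ℝ) :
    G a b (fun y => c * C y) t = c * G a b C t := by
  unfold G
  rw [← intervalIntegral.integral_const_mul]
  simp only [mul_assoc]

lemma G_sum (a b : ℝ) {ι : Type*} (s : Finset ι) {D : ι → ℝ → ℂ}
    (hD : ∀ i ∈ s, Continuous (D i)) (t : ℝ) :
    G a b (fun y => ∑ i ∈ s, D i y) t = ∑ i ∈ s, G a b (D i) t := by
  unfold G
  rw [← intervalIntegral.integral_finsetSum
    (fun i hi => intervalIntegrable_kernel (hD i hi) a b t)]
  simp only [Finset.sum_mul]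

lemma G_congr {a b : ℝ} {C D : ℝ → ℂ} (h : ∀ y, C y = D y) (t : ℝ) :
    G a b C t = G a b D t := by
  have : C = D := funext h
  rw [this]

lemma G_translate (a b : ℝ) (C : ℝ → ℂ) (s t : ℝ) :
    G a b (fun y => C y * Complex.exp ((-(y * s) : ℝ) * Complex.I)) t = G a b C (t - s) := by
  unfold G
  refine intervalIntegral.integral_congr fun y _ => ?_
  simp only
  rw [mul_assoc, ← Complex.exp_add]
  congr 2
  push_cast
  ring

lemma continuous_G (a b : ℝ) {C : ℝ → ℂ} (hC : Continuous C) : Continuous (G a b C) := by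
  unfold G
  apply intervalIntegral.continuous_parametric_intervalIntegral_of_continuous'
  fun_prop

/-- Riemann–Lebesgue -/
lemma tendsto_G (a b : ℝ) {C : ℝ → ℂ} : Tendsto (G a b C) (cocompact ℝ) (𝓝 0) := by
  have key : ∀ f : ℝ → ℂ, Tendsto (fun t : ℝ => ∫ y : ℝ, f y * Complex.exp ((y * t : ℝ) * Complex.I))
      (cocompact ℝ) (𝓝 0) := by
    intro f
    have h1 := Real.tendsto_integral_exp_smul_cocompact f
    have h2 : Tendsto (fun t : ℝ => -(t / (2 * Real.pi))) (cocompact ℝ) (cocompact ℝ) := by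
      have : (fun t : ℝ => -(t / (2 * Real.pi))) = fun t => (-(1 / (2 * Real.pi))) * t := by
        funext t; ring
      rw [this]
      exact (Homeomorph.mulLeft₀ (-(1 / (2 * Real.pi)))
        (by simp [Real.pi_ne_zero])).isClosedEmbedding.tendsto_cocompact
    have h3 := h1.comp h2
    refine h3.congr fun t => ?_
    simp only [Function.comp]
    refine integral_congr_ae (Filter.Eventually.of_forall fun y => ?_)
    simp only [Circle.smul_def, Real.fourierChar_apply, smul_eq_mul]
    rw [mul_comm]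
    congr 2
    push_cast
    have hpi : (Real.pi : ℂ) ≠ 0 := by exact_mod_cast Real.pi_ne_zero
    field_simp
  unfold G
  by_cases hab : a ≤ b
  · simp_rw [intervalIntegral.integral_of_le hab]
    have := key ((Ioc a b).indicator C)
    refine this.congr fun t => ?_
    rw [← integral_indicator measurableSet_Ioc]
    refine integral_congr_ae (Filter.Eventually.of_forall fun y => ?_)
    simp only [indicator]
    split_ifs <;> simp
  · push Not at hab
    simp_rw [intervalIntegral.integral_of_ge hab.le]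
    have := (key ((Ioc b a).indicator C)).neg
    rw [neg_zero] at this
    refine this.congr fun t => ?_
    rw [← integral_indicator measurableSet_Ioc]
    congr 1
    refine integral_congr_ae (Filter.Eventually.of_forall fun y => ?_)
    simp only [indicator]
    split_ifs <;> simp

/-- bounded -/
lemma exists_bound_G {a b : ℝ} (hab : a ≤ b) (C : ℝ → ℂ) : ∃ B : ℝ, 0 ≤ B ∧ ∀ t, ‖G a b C t‖ ≤ B :=
  ⟨∫ y in a..b, ‖C y‖, intervalIntegral.integral_nonneg hab fun _ _ => norm_nonneg _,
    fun t => norm_G_le hab t⟩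

/-- the translate lemma: nodes decouple for large `T` -/
lemma translate_small {φ : ℝ → ℝ} {ξ : ℝ} (hξ : 0 < ξ) (hφ : ∀ t, Real.exp (ξ * |t|) ≤ φ t)
    {a b : ℝ} (hab : a ≤ b) (D : ℝ → ℂ) {K : ℝ} (hK : 0 < K) (m : ℤ) {ε : ℝ} (hε : 0 < ε) :
    ∀ᶠ T : ℝ in atTop, ∀ m' : ℕ, (m' : ℤ) ≠ m → ∀ t : ℝ,
      K ^ m * ‖G a b D (t - m * T)‖ ≤ ε * φ (t - m' * T) := by
  obtain ⟨B, hB0, hB⟩ := exists_bound_G hab D
  have hKm : 0 < K ^ m := zpow_pos hK m
  -- decay
  have h1 : ∀ᶠ t in cocompact ℝ, ‖G a b D t‖ < ε / K ^ m := by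
    have := (tendsto_G a b (C := D)).norm
    rw [norm_zero] at this
    exact this.eventually_lt_const (by positivity)
  rw [Metric.cobounded_eq_cocompact.symm] at h1
  obtain ⟨R, hR⟩ : ∃ R : ℝ, ∀ t : ℝ, R ≤ |t| → ‖G a b D t‖ < ε / K ^ m := by
    have h2 := (Filter.hasBasis_cobounded_norm (E := ℝ)).eventually_iff.1 h1
    obtain ⟨R, _, hR⟩ := h2
    exact ⟨R, fun t ht => hR (by simpa using ht)⟩
  have h3 : ∀ᶠ T : ℝ in atTop, K ^ m * B ≤ ε * Real.exp (ξ * (T / 2)) := by
    have : Tendsto (fun T : ℝ => ε * Real.exp (ξ * (T / 2))) atTop atTop := by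
      apply Tendsto.const_mul_atTop hε
      apply Real.tendsto_exp_atTop.comp
      apply Tendsto.const_mul_atTop hξ
      exact tendsto_id.atTop_div_const (by norm_num)
    exact this.eventually_ge_atTop _
  filter_upwards [h3, eventually_ge_atTop (2 * R), eventually_ge_atTop (0 : ℝ)]
    with T hT1 hT2 hT3 m' hm' t
  have hφ1 : ∀ s, 1 ≤ φ s := fun s =>
    (Real.one_le_exp (by positivity)).trans (hφ s)
  by_cases hc : T / 2 ≤ |t - m * T|
  · have h4 := hR (t - m * T) (by linarith)
    have h5 : K ^ m * ‖G a b D (t - m * T)‖ ≤ ε := by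
      rw [lt_div_iff₀ hKm] at h4
      linarith
    nlinarith [hφ1 (t - m' * T)]
  · push Not at hc
    have h6 : T / 2 ≤ |t - m' * T| := by
      have h7 : (1 : ℝ) ≤ |(m : ℝ) - m'| := by
        have : m - (m' : ℤ) ≠ 0 := sub_ne_zero.2 (Ne.symm hm')
        have := Int.one_le_abs this
        exact_mod_cast this
      have h8 : t - m' * T = (t - m * T) + (m - m') * T := by ring
      have h9 : |(m - m' : ℝ) * T| = |(m : ℝ) - m'| * T := by
        rw [abs_mul, abs_of_nonneg hT3]
      have h10 : |(m - m' : ℝ) * T| ≤ |t - m' * T| + |t - m * T| := by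
        have : (m - m' : ℝ) * T = (t - m' * T) - (t - m * T) := by ring
        rw [this]
        exact abs_sub _ _
      rw [h9] at h10
      nlinarith
    calc K ^ m * ‖G a b D (t - m * T)‖ ≤ K ^ m * B := by gcongr; exact hB _
      _ ≤ ε * Real.exp (ξ * (T / 2)) := hT1
      _ ≤ ε * Real.exp (ξ * |t - m' * T|) := by gcongr
      _ ≤ ε * φ (t - m' * T) := by gcongr; exact hφ _

end Pool.Agent.Helper44.WT
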