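import Pool.Agent.Helper44.WT.Basic

/-!
# The chain construction: Laurent expansions in `Y = K e^{-iyT}` and decoupling as `T → ∞`
-/

namespace Pool.Agent.Helper44.WT

open MeasureTheory Filter Set Topology

/-- `Y(y) = K e^{-iyT}` -/
noncomputable def Yf (K T y : ℝ) : ℂ := (K : ℂ) * Complex.exp ((-(y * T) : ℝ) * Complex.I)

lemma Yf_ne {K : ℝ} (hK : 0 < K) (T y : ℝ) : Yf K T y ≠ 0 :=
  mul_ne_zero (by exact_mod_cast hK.ne') (Complex.exp_ne_zero _)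

lemma norm_Yf {K : ℝ} (hK : 0 < K) (T y : ℝ) : ‖Yf K T y‖ = K := by
  rw [Yf, norm_mul, norm_expI, mul_one, Complex.norm_real, Real.norm_eq_abs, abs_of_pos hK]

lemma Yf_zpow {K : ℝ} (T y : ℝ) (m : ℤ) :
    Yf K T y ^ m = ((K ^ m : ℝ) : ℂ) * Complex.exp ((-(y * (m * T)) : ℝ) * Complex.I) := by
  rw [Yf, mul_zpow, ← Complex.exp_int_mul]
  congr 1
  · push_cast; rfl
  · congr 1
    push_cast
    ring

lemma G_Yf {K : ℝ} (a b T : ℝ) (D : ℝ → ℂ) (m : ℤ) (t : ℝ) :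
    G a b (fun y => D y * Yf K T y ^ m) t = ((K ^ m : ℝ) : ℂ) * G a b D (t - m * T) := by
  rw [← G_translate, ← G_const_mul]
  refine G_congr (fun y => ?_) t
  rw [Yf_zpow]
  ring

lemma norm_G_Yf {K : ℝ} (hK : 0 < K) (a b T : ℝ) (D : ℝ → ℂ) (m : ℤ) (t : ℝ) :
    ‖G a b (fun y => D y * Yf K T y ^ m) t‖ = K ^ m * ‖G a b D (t - m * T)‖ := by
  rw [G_Yf, norm_mul, Complex.norm_real, Real.norm_eq_abs, abs_of_pos (zpow_pos hK m)]

lemma continuous_Yf (K T : ℝ) : Continuous (Yf K T) := by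
  unfold Yf; fun_prop

lemma continuous_Yf_zpow {K : ℝ} (T : ℝ) (m : ℤ) : Continuous fun y => Yf K T y ^ m := by
  have : (fun y => Yf K T y ^ m) = fun y =>
      ((K ^ m : ℝ) : ℂ) * Complex.exp ((-(y * (m * T)) : ℝ) * Complex.I) := by
    funext y; exact Yf_zpow T y m
  rw [this]
  fun_prop

/-- the Laurent coefficients of `znew^(n+1) * C'` -/
noncomputable def Dc (z Q v Cb : ℝ → ℂ) (n0 : ℕ) : ℕ → ℤ → ℝ → ℂ
  | 0, m, y => if m = n0 then Q y * z y ^ n0 * Cb y else if m = -1 then -(v y * Cb y) else 0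
  | n + 1, m, y => Q y * Dc z Q v Cb n0 n m y - v y * Dc z Q v Cb n0 n (m + 1) y

variable {z Q v Cb : ℝ → ℂ} {n0 : ℕ}

lemma Dc_continuous (hz : Continuous z) (hQ : Continuous Q) (hv : Continuous v)
    (hCb : Continuous Cb) (n : ℕ) : ∀ m : ℤ, Continuous (Dc z Q v Cb n0 n m) := by
  induction n with
  | zero =>
    intro m
    have h0 : Dc z Q v Cb n0 0 m = fun y =>
        if m = n0 then Q y * z y ^ n0 * Cb y else if m = -1 then -(v y * Cb y) else 0 := by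
      funext y; rfl
    rw [h0]
    by_cases h1 : m = n0
    · simp only [h1, if_true]
      fun_prop
    · by_cases h2 : m = -1
      · subst h2
        simp only [h1, if_true, if_false]
        fun_prop
      · simp only [h1, h2, if_false]
        fun_prop
  | succ n ih =>
    intro m
    have h1 := ih m
    have h2 := ih (m + 1)
    have : Dc z Q v Cb n0 (n + 1) m =
        fun y => Q y * Dc z Q v Cb n0 n m y - v y * Dc z Q v Cb n0 n (m + 1) y := by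
      funext y; rfl
    rw [this]
    fun_prop

lemma Dc_support (n : ℕ) : ∀ (m : ℤ) (y : ℝ), (m < -(n + 1) ∨ (n0 : ℤ) < m) →
    Dc z Q v Cb n0 n m y = 0 := by
  induction n with
  | zero =>
    intro m y h
    unfold Dc
    rw [if_neg (by omega), if_neg (by omega)]
  | succ n ih =>
    intro m y h
    change Q y * Dc z Q v Cb n0 n m y - v y * Dc z Q v Cb n0 n (m + 1) y = 0
    rw [ih m y (by push_cast at h; omega), ih (m + 1) y (by push_cast at h; omega)]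
    simp

/-- finite index set -/
noncomputable def idx (n0 n : ℕ) : Finset ℤ := Finset.Icc (-(n + 1 : ℤ)) n0

lemma Dc_eq_zero {n : ℕ} {m : ℤ} (hm : m ∉ idx n0 n) (y : ℝ) : Dc z Q v Cb n0 n m y = 0 := by
  apply Dc_support
  simp only [idx, Finset.mem_Icc, not_and_or, not_le] at hm
  exact hm

lemma summable_Dc (n : ℕ) (y : ℝ) (w : ℂ) :
    Summable fun m : ℤ => Dc z Q v Cb n0 n m y * w ^ m :=
  summable_of_ne_finset_zero (s := idx n0 n) fun m hm => by rw [Dc_eq_zero hm, zero_mul]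

/-- the truncated geometric chain -/
noncomputable def chainC (z Cb : ℝ → ℂ) (K T : ℝ) (n0 : ℕ) (y : ℝ) : ℂ :=
  Cb y * ∑ m ∈ Finset.range (n0 + 1), (z y * Yf K T y) ^ m

/-- the new multiplier -/
noncomputable def znew (Q v : ℝ → ℂ) (K T : ℝ) (y : ℝ) : ℂ := Q y - v y * (Yf K T y)⁻¹

lemma znew_mul_chain {K : ℝ} (hK : 0 < K) (T : ℝ) (hQv : ∀ y, Q y = v y * z y) (y : ℝ) :
    znew Q v K T y * chainC z Cb K T n0 y =
      Q y * z y ^ n0 * Cb y * Yf K T y ^ n0 - v y * Cb y * (Yf K T y)⁻¹ := by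
  have hY := Yf_ne hK T y
  rw [znew, chainC, hQv]
  have h1 : (v y * z y - v y * (Yf K T y)⁻¹) =
      v y * (Yf K T y)⁻¹ * (z y * Yf K T y - 1) := by
    field_simp
  rw [h1]
  have h2 := mul_geom_sum (z y * Yf K T y) (n0 + 1)
  calc v y * (Yf K T y)⁻¹ * (z y * Yf K T y - 1) *
        (Cb y * ∑ m ∈ Finset.range (n0 + 1), (z y * Yf K T y) ^ m)
      = v y * (Yf K T y)⁻¹ * Cb y * ((z y * Yf K T y - 1) *
        ∑ m ∈ Finset.range (n0 + 1), (z y * Yf K T y) ^ m) := by ring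
    _ = v y * (Yf K T y)⁻¹ * Cb y * ((z y * Yf K T y) ^ (n0 + 1) - 1) := by rw [h2]
    _ = _ := by
      rw [mul_pow, pow_succ, pow_succ]
      field_simp

lemma summable_shift {F : ℤ → ℂ} (h : Summable F) : Summable fun m => F (m + 1) :=
  (Equiv.addRight (1 : ℤ)).summable_iff.2 h

lemma tsum_shift (F : ℤ → ℂ) : ∑' m, F (m + 1) = ∑' m, F m :=
  (Equiv.addRight (1 : ℤ)).tsum_eq F

lemma expansion {K : ℝ} (hK : 0 < K) (T : ℝ) (hQv : ∀ y, Q y = v y * z y) (n : ℕ) (y : ℝ) :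
    znew Q v K T y ^ (n + 1) * chainC z Cb K T n0 y =
      ∑' m : ℤ, Dc z Q v Cb n0 n m y * Yf K T y ^ m := by
  have hY := Yf_ne hK T y
  induction n with
  | zero =>
    rw [zero_add, pow_one, znew_mul_chain hK T hQv]
    have h1 : ∀ m : ℤ, Dc z Q v Cb n0 0 m y * Yf K T y ^ m =
        (if m = (n0 : ℤ) then Q y * z y ^ n0 * Cb y * Yf K T y ^ n0 else 0) +
        (if m = -1 then -(v y * Cb y * (Yf K T y)⁻¹) else 0) := by
      intro m
      unfold Dc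
      by_cases h1 : m = n0
      · subst h1
        rw [if_pos rfl, if_pos rfl, if_neg (by omega), add_zero, zpow_natCast]
      · by_cases h2 : m = -1
        · subst h2
          rw [if_neg h1, if_pos rfl, if_neg h1, if_pos rfl, zpow_neg_one]
          ring
        · simp [h1, h2]
    simp_rw [h1]
    rw [Summable.tsum_add, tsum_ite_eq, tsum_ite_eq]
    · ring
    · exact summable_of_ne_finset_zero (s := {(n0 : ℤ)}) fun m hm => by
        rw [if_neg (by simpa using hm)]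
    · exact summable_of_ne_finset_zero (s := {(-1 : ℤ)}) fun m hm => by
        rw [if_neg (by simpa using hm)]
  | succ n ih =>
    have h1 : ∀ m : ℤ, Dc z Q v Cb n0 (n + 1) m y * Yf K T y ^ m =
        Q y * (Dc z Q v Cb n0 n m y * Yf K T y ^ m) -
        v y * (Yf K T y)⁻¹ * (Dc z Q v Cb n0 n (m + 1) y * Yf K T y ^ (m + 1)) := by
      intro m
      change (Q y * Dc z Q v Cb n0 n m y - v y * Dc z Q v Cb n0 n (m + 1) y) * Yf K T y ^ m = _
      rw [zpow_add_one₀ hY]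
      generalize Dc z Q v Cb n0 n m y = d1
      generalize Dc z Q v Cb n0 n (m + 1) y = d2
      generalize Yf K T y ^ m = w
      have h9 : (Yf K T y)⁻¹ * Yf K T y = 1 := inv_mul_cancel₀ hY
      calc (Q y * d1 - v y * d2) * w = Q y * (d1 * w) - v y * (d2 * w) * 1 := by ring
        _ = Q y * (d1 * w) - v y * (d2 * w) * ((Yf K T y)⁻¹ * Yf K T y) := by rw [h9]
        _ = _ := by ring
    simp_rw [h1]
    have hs := summable_Dc (z := z) (Q := Q) (v := v) (Cb := Cb) (n0 := n0) n y (Yf K T y)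
    have hs' : Summable fun m : ℤ => Dc z Q v Cb n0 n (m + 1) y * Yf K T y ^ (m + 1) :=
      summable_shift hs
    rw [Summable.tsum_sub (hs.mul_left _) (hs'.mul_left _), tsum_mul_left, tsum_mul_left]
    have h2 : ∑' m : ℤ, Dc z Q v Cb n0 n (m + 1) y * Yf K T y ^ (m + 1) =
        ∑' m : ℤ, Dc z Q v Cb n0 n m y * Yf K T y ^ m :=
      tsum_shift (fun m => Dc z Q v Cb n0 n m y * Yf K T y ^ m)
    rw [h2, ← ih, pow_succ' _ (n + 1), znew]
    ring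

/-- pointwise bound of the nonnegative coefficients -/
lemma Dc_bound {y : ℝ} (hz : ‖z y‖ ≤ 1 / 128) (hQ : ‖Q y‖ ≤ 1 / 128) (hv : ‖v y‖ ≤ 2) (n : ℕ) :
    ∑ m ∈ Finset.range (n0 + 1), (32 : ℝ) ^ m * ‖Dc z Q v Cb n0 n m y‖ ≤
      (1 / 8 : ℝ) ^ n * ((1 / 4 : ℝ) ^ n0 * ‖Cb y‖) := by
  induction n with
  | zero =>
    have h1 : ∀ m ∈ Finset.range (n0 + 1), (32 : ℝ) ^ m * ‖Dc z Q v Cb n0 0 m y‖ =
        if m = n0 then (32 : ℝ) ^ n0 * ‖Q y * z y ^ n0 * Cb y‖ else 0 := by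
      intro m _
      unfold Dc
      by_cases h1 : m = n0
      · subst h1; simp
      · rw [if_neg (by exact_mod_cast h1), if_neg (by omega), if_neg h1]
        simp
    rw [Finset.sum_congr rfl h1, Finset.sum_ite_eq' , if_pos (by simp), pow_zero, one_mul,
      norm_mul, norm_mul, norm_pow]
    have h2 : (32 : ℝ) ^ n0 * (‖Q y‖ * ‖z y‖ ^ n0 * ‖Cb y‖) ≤
        (32 : ℝ) ^ n0 * (1 * (1 / 128) ^ n0 * ‖Cb y‖) := by
      gcongr
      linarith
    refine h2.trans (le_of_eq ?_)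
    rw [show (1 / 4 : ℝ) = 32 * (1 / 128) by norm_num, mul_pow]
    ring
  | succ n ih =>
    have h1 : ∀ m ∈ Finset.range (n0 + 1), (32 : ℝ) ^ m * ‖Dc z Q v Cb n0 (n + 1) m y‖ ≤
        (1 / 128) * ((32 : ℝ) ^ m * ‖Dc z Q v Cb n0 n m y‖) +
        (1 / 16) * ((32 : ℝ) ^ (m + 1) * ‖Dc z Q v Cb n0 n ((m + 1 : ℕ) : ℤ) y‖) := by
      intro m _
      have h3 : ‖Dc z Q v Cb n0 (n + 1) m y‖ ≤ (1 / 128) * ‖Dc z Q v Cb n0 n m y‖ +
          2 * ‖Dc z Q v Cb n0 n ((m + 1 : ℕ) : ℤ) y‖ := by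
        change ‖Q y * Dc z Q v Cb n0 n m y - v y * Dc z Q v Cb n0 n (m + 1) y‖ ≤ _
        refine (norm_sub_le _ _).trans ?_
        rw [norm_mul, norm_mul]
        push_cast
        gcongr
      calc _ ≤ (32 : ℝ) ^ m * ((1 / 128) * ‖Dc z Q v Cb n0 n m y‖ +
          2 * ‖Dc z Q v Cb n0 n ((m + 1 : ℕ) : ℤ) y‖) := by gcongr
        _ = _ := by rw [pow_succ]; ring
    refine (Finset.sum_le_sum h1).trans ?_
    rw [Finset.sum_add_distrib, ← Finset.mul_sum, ← Finset.mul_sum]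
    have h4 : ∑ m ∈ Finset.range (n0 + 1), (32 : ℝ) ^ (m + 1) *
        ‖Dc z Q v Cb n0 n ((m + 1 : ℕ) : ℤ) y‖ ≤
        ∑ m ∈ Finset.range (n0 + 1), (32 : ℝ) ^ m * ‖Dc z Q v Cb n0 n m y‖ := by
      have h5 := Finset.sum_range_succ' (fun m : ℕ => (32 : ℝ) ^ m * ‖Dc z Q v Cb n0 n (m : ℤ) y‖)
        (n0 + 1)
      have h6 := Finset.sum_range_succ (fun m : ℕ => (32 : ℝ) ^ m * ‖Dc z Q v Cb n0 n (m : ℤ) y‖)
        (n0 + 1)
      have h7 : Dc z Q v Cb n0 n ((n0 + 1 : ℕ) : ℤ) y = 0 := Dc_support n _ y (by right; omega)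
      rw [h7] at h6
      have h8 : 0 ≤ (32 : ℝ) ^ 0 * ‖Dc z Q v Cb n0 n ((0 : ℕ) : ℤ) y‖ := by positivity
      rw [norm_zero, mul_zero, add_zero] at h6
      linarith
    set A := ∑ m ∈ Finset.range (n0 + 1), (32 : ℝ) ^ m * ‖Dc z Q v Cb n0 n (m : ℤ) y‖ with hA
    have hA0 : 0 ≤ A := Finset.sum_nonneg fun i _ => by positivity
    calc _ ≤ 1 / 128 * A + 1 / 16 * A := by gcongr
      _ ≤ (1 / 8) * A := by linarith
      _ ≤ (1 / 8) * ((1 / 8 : ℝ) ^ n * ((1 / 4 : ℝ) ^ n0 * ‖Cb y‖)) := by gcongr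
      _ = _ := by rw [pow_succ]; ring

lemma Dc_bound_single {y : ℝ} (hz : ‖z y‖ ≤ 1 / 128) (hQ : ‖Q y‖ ≤ 1 / 128) (hv : ‖v y‖ ≤ 2)
    (n : ℕ) (m : ℕ) :
    ‖Dc z Q v Cb n0 n m y‖ ≤ (1 / 8 : ℝ) ^ n * ((1 / 4 : ℝ) ^ n0 * ‖Cb y‖) := by
  by_cases hm : m ≤ n0
  · refine le_trans ?_ (Dc_bound hz hQ hv n)
    have h1 : ‖Dc z Q v Cb n0 n m y‖ ≤ (32 : ℝ) ^ m * ‖Dc z Q v Cb n0 n m y‖ :=
      le_mul_of_one_le_left (norm_nonneg _) (one_le_pow₀ (by norm_num))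
    refine h1.trans ?_
    exact Finset.single_le_sum (f := fun m : ℕ => (32 : ℝ) ^ m * ‖Dc z Q v Cb n0 n (m : ℤ) y‖)
      (fun i _ => by positivity) (by simp; omega)
  · rw [Dc_support n _ y (by right; omega), norm_zero]
    positivity

/-- decoupling for a finite Laurent sum -/
lemma decouple {φ : ℝ → ℝ} {ξ : ℝ} (hξ : 0 < ξ) (hφ : ∀ t, Real.exp (ξ * |t|) ≤ φ t)
    {a b : ℝ} (hab : a ≤ b) {K : ℝ} (hK : 1 ≤ K) (s : Finset ℤ) (D : ℤ → ℝ → ℂ)
    (hD : ∀ m ∈ s, Continuous (D m)) {A : ℝ} (hA0 : 0 ≤ A)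
    (hA : ∀ m : ℕ, (m : ℤ) ∈ s → ∀ t, ‖G a b (D m) t‖ ≤ A * φ t) {ε : ℝ} (hε : 0 < ε) :
    ∀ᶠ T : ℝ in atTop, ∀ m' : ℕ, ∀ t : ℝ,
      ‖G a b (fun y => ∑ m ∈ s, D m y * Yf K T y ^ m) t‖ ≤ (A + ε) * (K ^ m' * φ (t - m' * T)) := by
  have hK0 : 0 < K := by linarith
  set ε' : ℝ := ε / (s.card + 1) with hε'
  have hε'0 : 0 < ε' := by positivity
  have h1 : ∀ᶠ T : ℝ in atTop, ∀ m ∈ s, ∀ m' : ℕ, (m' : ℤ) ≠ m → ∀ t : ℝ,
      K ^ m * ‖G a b (D m) (t - m * T)‖ ≤ ε' * φ (t - m' * T) := by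
    rw [Filter.eventually_all_finset]
    intro m _
    exact translate_small hξ hφ hab (D m) hK0 m hε'0
  filter_upwards [h1] with T hT m' t
  have hφ0 : 0 < φ (t - m' * T) := (Real.exp_pos _).trans_le (hφ _)
  have hKm : 1 ≤ K ^ m' := one_le_pow₀ hK
  rw [G_sum a b s (D := fun m y => D m y * Yf K T y ^ m)
    (fun m hm => (hD m hm).mul (continuous_Yf_zpow T m))]
  have h2 : ∀ m ∈ s, ‖G a b (fun y => D m y * Yf K T y ^ m) t‖ ≤
      (if m = (m' : ℤ) then A * (K ^ m' * φ (t - m' * T)) else 0) +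
        ε' * (K ^ m' * φ (t - m' * T)) := by
    intro m hm
    rw [norm_G_Yf hK0]
    split_ifs with h
    · subst h
      rw [zpow_natCast]
      have h3 := hA m' hm (t - m' * T)
      have h4 : 0 ≤ ε' * (K ^ m' * φ (t - m' * T)) := by positivity
      have h5 : K ^ m' * ‖G a b (D m') (t - m' * T)‖ ≤ K ^ m' * (A * φ (t - m' * T)) := by gcongr
      push_cast
      linarith
    · rw [zero_add]
      refine (hT m hm m' (Ne.symm h) t).trans ?_
      have : φ (t - m' * T) ≤ K ^ m' * φ (t - m' * T) := le_mul_of_one_le_left hφ0.le hKm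
      gcongr
  refine (norm_sum_le _ _).trans ((Finset.sum_le_sum h2).trans ?_)
  rw [Finset.sum_add_distrib, Finset.sum_ite_eq', Finset.sum_const, nsmul_eq_mul, add_mul]
  have h6 : (s.card : ℝ) * (ε' * (K ^ m' * φ (t - m' * T))) ≤ ε * (K ^ m' * φ (t - m' * T)) := by
    rw [← mul_assoc]
    have : (s.card : ℝ) * ε' ≤ ε := by
      rw [hε', mul_div_assoc', div_le_iff₀ (by positivity)]
      nlinarith
    gcongr
  have h7 : (if (m' : ℤ) ∈ s then A * (K ^ m' * φ (t - m' * T)) else 0) ≤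
      A * (K ^ m' * φ (t - m' * T)) := by
    split_ifs
    · exact le_rfl
    · positivity
  linarith

/-- powers of the new multiplier applied to the chain -/
lemma chain_power {φ : ℝ → ℝ} {ξ : ℝ} (hξ : 0 < ξ) (hφ : ∀ t, Real.exp (ξ * |t|) ≤ φ t)
    {a b : ℝ} (hab : a ≤ b) {K : ℝ} (hK : 1 ≤ K)
    (hzc : Continuous z) (hQc : Continuous Q) (hvc : Continuous v) (hCb : Continuous Cb)
    (hQv : ∀ y, Q y = v y * z y)
    (hz : ∀ y ∈ Icc a b, ‖z y‖ ≤ 1 / 128) (hQ : ∀ y ∈ Icc a b, ‖Q y‖ ≤ 1 / 128)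
    (hv : ∀ y ∈ Icc a b, ‖v y‖ ≤ 2) (n : ℕ) {ε : ℝ} (hε : 0 < ε) :
    ∀ᶠ T : ℝ in atTop, ∀ m' : ℕ, ∀ t : ℝ,
      ‖G a b (fun y => znew Q v K T y ^ (n + 1) * chainC z Cb K T n0 y) t‖ ≤
        ((1 / 8 : ℝ) ^ n * ((1 / 4 : ℝ) ^ n0 * ∫ y in a..b, ‖Cb y‖) + ε) *
          (K ^ m' * φ (t - m' * T)) := by
  have hφ1 : ∀ s, 1 ≤ φ s := fun s => (Real.one_le_exp (by positivity)).trans (hφ s)
  have hI : 0 ≤ ∫ y in a..b, ‖Cb y‖ := intervalIntegral.integral_nonneg hab fun _ _ => norm_nonneg _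
  have hA : ∀ m : ℕ, ((m : ℕ) : ℤ) ∈ idx n0 n → ∀ t, ‖G a b (Dc z Q v Cb n0 n m) t‖ ≤
      ((1 / 8 : ℝ) ^ n * ((1 / 4 : ℝ) ^ n0 * ∫ y in a..b, ‖Cb y‖)) * φ t := by
    intro m _ t
    have h1 : ‖G a b (Dc z Q v Cb n0 n m) t‖ ≤
        ∫ y in a..b, (1 / 8 : ℝ) ^ n * ((1 / 4 : ℝ) ^ n0 * ‖Cb y‖) :=
      norm_G_le_of_le hab (Dc_continuous hzc hQc hvc hCb n m) (by fun_prop)
        (fun y hy => Dc_bound_single (hz y hy) (hQ y hy) (hv y hy) n m) t
    rw [intervalIntegral.integral_const_mul, intervalIntegral.integral_const_mul] at h1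
    refine h1.trans (le_mul_of_one_le_right (by positivity) (hφ1 t))
  have h2 := decouple hξ hφ hab hK (idx n0 n) (Dc z Q v Cb n0 n)
    (fun m _ => Dc_continuous hzc hQc hvc hCb n m) (by positivity) hA hε
  filter_upwards [h2] with T hT m' t
  refine le_trans (le_of_eq ?_) (hT m' t)
  congr 1
  refine G_congr (fun y => ?_) t
  rw [expansion (by linarith) T hQv n y]
  exact tsum_eq_sum fun m hm => by rw [Dc_eq_zero hm, zero_mul]

end Pool.Agent.Helper44.WT
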