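import Pool.Agent.Helper44.WT.Seq

/-!
# The kernels, the function `f`, and `f(S) g = 0`
-/

namespace Pool.Agent.Helper44.WT

open MeasureTheory Filter Set Topology

/-- exponential kernel starting at `r` -/
noncomputable def ker (w M r : ℝ) (s : ℝ) : ℝ :=
  (Ioi r).indicator (fun s => w * Real.exp (-(M * (s - r)))) s

lemma ker_of_le {w M r s : ℝ} (h : s ≤ r) : ker w M r s = 0 := by
  unfold ker
  exact indicator_of_notMem (by simpa using h) _

lemma ker_of_lt {w M r s : ℝ} (h : r < s) : ker w M r s = w * Real.exp (-(M * (s - r))) := by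
  unfold ker
  exact indicator_of_mem (by simpa using h) _

lemma ker_nonneg {w M r : ℝ} (hw : 0 ≤ w) (s : ℝ) : 0 ≤ ker w M r s := by
  unfold ker
  exact indicator_nonneg (fun _ _ => by positivity) _

lemma ker_le {w M r : ℝ} (hw : 0 ≤ w) (hM : 0 ≤ M) (s : ℝ) : ker w M r s ≤ w := by
  rcases le_or_gt s r with h | h
  · rw [ker_of_le h]; exact hw
  · rw [ker_of_lt h]
    have : Real.exp (-(M * (s - r))) ≤ 1 := by
      rw [Real.exp_le_one_iff]
      have : 0 ≤ M * (s - r) := mul_nonneg hM (by linarith)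
      linarith
    nlinarith

lemma measurable_ker (w M r : ℝ) : Measurable (ker w M r) := by
  unfold ker
  exact Measurable.indicator (by fun_prop) measurableSet_Ioi

lemma ker_cexp (w M r : ℝ) (lam : ℂ) (s : ℝ) :
    (ker w M r s : ℂ) * Complex.exp (lam * s) =
      (Ioi r).indicator (fun s : ℝ => (w : ℂ) * Complex.exp ((M : ℂ) * r) *
        Complex.exp ((lam - M) * s)) s := by
  rcases le_or_gt s r with h | h
  · rw [ker_of_le h, indicator_of_notMem (by simpa using h)]
    simp
  · rw [ker_of_lt h, indicator_of_mem (by simpa using h)]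
    push_cast
    rw [mul_assoc, mul_assoc, ← Complex.exp_add, ← Complex.exp_add]
    congr 2
    ring

lemma integrable_ker_cexp (w : ℝ) {M : ℝ} (r : ℝ) {lam : ℂ} (h : lam.re < M) :
    Integrable (fun s : ℝ => (ker w M r s : ℂ) * Complex.exp (lam * s)) := by
  simp_rw [ker_cexp]
  rw [integrable_indicator_iff measurableSet_Ioi]
  apply Integrable.const_mul
  apply integrableOn_exp_mul_complex_Ioi
  simpa using h

lemma integral_ker_cexp (w : ℝ) {M : ℝ} (r : ℝ) {lam : ℂ} (h : lam.re < M) :
    ∫ s : ℝ, (ker w M r s : ℂ) * Complex.exp (lam * s) =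
      (w : ℂ) * Complex.exp (lam * r) / ((M : ℂ) - lam) := by
  simp_rw [ker_cexp]
  rw [integral_indicator measurableSet_Ioi, integral_const_mul,
    integral_exp_mul_complex_Ioi (by simpa using h)]
  have h1 : (M : ℂ) - lam ≠ 0 := ne_of_re h
  have h2 : lam - (M : ℂ) ≠ 0 := by
    intro h0; apply h1; rw [← neg_sub, h0, neg_zero]
  have h3 : Complex.exp ((M : ℂ) * r) * Complex.exp ((lam - M) * r) = Complex.exp (lam * r) := by
    rw [← Complex.exp_add]; congr 1; ring
  rw [mul_assoc, ← h3]
  field_simp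
  ring

lemma integrable_ker (w : ℝ) {M : ℝ} (hM : 0 < M) (r : ℝ) : Integrable (ker w M r) := by
  have := integrable_ker_cexp w (M := M) r (lam := 0) (by simpa using hM)
  simp only [zero_mul, Complex.exp_zero, mul_one] at this
  have h2 := this.re
  simpa using h2

lemma integral_ker (w : ℝ) {M : ℝ} (hM : 0 < M) (r : ℝ) : ∫ s, ker w M r s = w / M := by
  have := integral_ker_cexp w (M := M) r (lam := 0) (by simpa using hM)
  simp only [zero_mul, Complex.exp_zero, mul_one, sub_zero] at this
  rw [integral_complex_ofReal] at this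
  exact_mod_cast this

lemma ker_weight {w M r K : ℝ} (hw : 0 ≤ w) (hM : 1 ≤ M) {ψ : ℝ → ℝ} (hψm : Measurable ψ)
    (hψ0 : ∀ t, 0 ≤ ψ t) (hψ : ∀ u, ψ (r + u) ≤ K * Real.exp (|u| / 2)) :
    Integrable (fun s => ker w M r s * ψ s) ∧ ∫ s, ker w M r s * ψ s ≤ w * K / (M - 1 / 2) := by
  have hle : ∀ s, ker w M r s * ψ s ≤ ker (w * K) (M - 1 / 2) r s := by
    intro s
    rcases le_or_gt s r with h | h
    · rw [ker_of_le h, ker_of_le h]; simp
    · rw [ker_of_lt h, ker_of_lt h]
      have h1 := hψ (s - r)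
      rw [add_sub_cancel, abs_of_pos (by linarith)] at h1
      calc w * Real.exp (-(M * (s - r))) * ψ s ≤
          w * Real.exp (-(M * (s - r))) * (K * Real.exp ((s - r) / 2)) := by gcongr
        _ = w * K * (Real.exp (-(M * (s - r))) * Real.exp ((s - r) / 2)) := by ring
        _ = _ := by rw [← Real.exp_add]; congr 2; ring
  have hint : Integrable (ker (w * K) (M - 1 / 2) r) := integrable_ker _ (by linarith) r
  have hI : Integrable (fun s => ker w M r s * ψ s) := by
    refine Integrable.mono' hint ((measurable_ker w M r).mul hψm).aestronglyMeasurable ?_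
    refine Filter.Eventually.of_forall fun s => ?_
    rw [Real.norm_eq_abs, abs_of_nonneg (mul_nonneg (ker_nonneg hw s) (hψ0 s))]
    exact hle s
  refine ⟨hI, ?_⟩
  rw [← integral_ker (w * K) (by linarith : 0 < M - 1 / 2) r]
  exact integral_mono hI hint hle

/-- Fubini: action of the kernel on a superposition -/
lemma integral_ker_G (w : ℝ) {M : ℝ} (hM : 0 < M) (r : ℝ) {a b : ℝ} (hab : a ≤ b)
    {C : ℝ → ℂ} (hC : Continuous C) (τ : ℝ) :
    ∫ s : ℝ, (ker w M r s : ℂ) * G a b C (τ + s) =
      G a b (fun y => C y * ((w : ℂ) * Complex.exp ((y * Complex.I) * r) /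
        ((M : ℂ) - y * Complex.I))) τ := by
  unfold G
  simp_rw [intervalIntegral.integral_of_le hab]
  have h1 : ∀ s : ℝ, (ker w M r s : ℂ) *
      ∫ y in Ioc a b, C y * Complex.exp ((y * (τ + s) : ℝ) * Complex.I) =
      ∫ y in Ioc a b, (ker w M r s : ℂ) * C y * Complex.exp ((y * (τ + s) : ℝ) * Complex.I) := by
    intro s
    rw [← integral_const_mul]
    simp only [mul_assoc]
  simp_rw [h1]
  have hint : Integrable (Function.uncurry fun (s : ℝ) (y : ℝ) =>
      (ker w M r s : ℂ) * C y * Complex.exp ((y * (τ + s) : ℝ) * Complex.I))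
      (volume.prod (volume.restrict (Ioc a b))) := by
    have h2 : Integrable (fun z : ℝ × ℝ => (ker w M r z.1 : ℂ) * C z.2)
        (volume.prod (volume.restrict (Ioc a b))) := by
      refine Integrable.mul_prod (integrable_ker w hM r).ofReal ?_
      exact (hC.integrableOn_Icc).mono_set Ioc_subset_Icc_self
    have h3 := h2.mul_bdd (c := 1)
      (g := fun z : ℝ × ℝ => Complex.exp ((z.2 * (τ + z.1) : ℝ) * Complex.I))
      (Continuous.aestronglyMeasurable (by fun_prop))
      (Filter.Eventually.of_forall fun z => (norm_expI _).le)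
    exact h3
  rw [integral_integral_swap hint]
  refine integral_congr_ae (Filter.Eventually.of_forall fun y => ?_)
  simp only
  have h4 : ∀ s : ℝ, (ker w M r s : ℂ) * C y * Complex.exp ((y * (τ + s) : ℝ) * Complex.I) =
      C y * Complex.exp ((y * τ : ℝ) * Complex.I) *
        ((ker w M r s : ℂ) * Complex.exp ((y * Complex.I) * s)) := by
    intro s
    have : Complex.exp ((y * (τ + s) : ℝ) * Complex.I) =
        Complex.exp ((y * τ : ℝ) * Complex.I) * Complex.exp ((y * Complex.I) * s) := by
      rw [← Complex.exp_add]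
      congr 1
      push_cast
      ring
    rw [this]
    ring
  simp_rw [h4]
  rw [integral_const_mul, integral_ker_cexp w r (by simpa using hM)]
  ring

/-! ### the kernels of the construction -/

/-- the kernels -/
noncomputable def kk : ℕ → ℝ → ℝ
  | 0 => ker 1 1 0
  | j + 1 => ker (wj j) (Mj j) (tj j)

/-- their transforms, at `s = -λ` -/
noncomputable def kt : ℕ → ℂ → ℂ
  | 0 => fun lam => 1 / (1 - lam)
  | j + 1 => fun lam => (wj j : ℂ) * Complex.exp (lam * tj j) / ((Mj j : ℂ) - lam)

lemma kk_nonneg (n : ℕ) (s : ℝ) : 0 ≤ kk n s := by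
  cases n with
  | zero => exact ker_nonneg zero_le_one s
  | succ j => exact ker_nonneg (wj_pos j).le s

lemma measurable_kk (n : ℕ) : Measurable (kk n) := by
  cases n with
  | zero => exact measurable_ker _ _ _
  | succ j => exact measurable_ker _ _ _

lemma kk_of_nonpos (n : ℕ) {s : ℝ} (hs : s ≤ 0) : kk n s = 0 := by
  cases n with
  | zero => exact ker_of_le hs
  | succ j => exact ker_of_le (hs.trans (tj_nonneg j))

lemma kk_le (n : ℕ) (s : ℝ) : kk n s ≤ (1 / 2) ^ n := by
  cases n with
  | zero =>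
    rw [pow_zero]
    exact ker_le (w := 1) (M := 1) (r := 0) zero_le_one zero_le_one s
  | succ j =>
    refine (ker_le (wj_pos j).le (Mj_pos j).le s).trans ?_
    unfold wj
    exact pow_le_pow_of_le_one (by norm_num) (by norm_num) (by omega)

lemma summable_kk (s : ℝ) : Summable fun n => kk n s :=
  Summable.of_nonneg_of_le (fun n => kk_nonneg n s) (fun n => kk_le n s)
    (summable_geometric_of_lt_one (by norm_num) (by norm_num))

lemma integrable_kk (n : ℕ) : Integrable (kk n) := by
  cases n with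
  | zero => exact integrable_ker _ one_pos _
  | succ j => exact integrable_ker _ (Mj_pos j) _

lemma integral_kk_G (n : ℕ) {a b : ℝ} (hab : a ≤ b) {C : ℝ → ℂ} (hC : Continuous C) (τ : ℝ) :
    ∫ s : ℝ, (kk n s : ℂ) * G a b C (τ + s) =
      G a b (fun y => C y * kt n (y * Complex.I)) τ := by
  cases n with
  | zero =>
    have := integral_ker_G 1 one_pos 0 hab hC τ
    simpa [kk, kt] using this
  | succ j =>
    have := integral_ker_G (wj j) (Mj_pos j) (tj j) hab hC τ
    exact this

lemma integrable_kk_cexp (n : ℕ) {lam : ℂ} (h : lam.re < 1) :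
    Integrable (fun s : ℝ => (kk n s : ℂ) * Complex.exp (lam * s)) := by
  cases n with
  | zero => exact integrable_ker_cexp 1 0 h
  | succ j => exact integrable_ker_cexp _ _ (h.trans_le (one_le_Mj j))

lemma integral_kk_cexp (n : ℕ) {lam : ℂ} (h : lam.re < 1) :
    ∫ s : ℝ, (kk n s : ℂ) * Complex.exp (lam * s) = kt n lam := by
  cases n with
  | zero =>
    have := integral_ker_cexp 1 (M := 1) 0 h
    simpa [kk, kt] using this
  | succ j => exact integral_ker_cexp (wj j) (M := Mj j) (tj j) (h.trans_le (one_le_Mj j))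

/-- weight bound of the `n`-th kernel -/
noncomputable def Bn : ℕ → ℝ
  | 0 => 2
  | j + 1 => 4 * wj j

lemma Bn_nonneg (n : ℕ) : 0 ≤ Bn n := by
  cases n with
  | zero => unfold Bn; norm_num
  | succ j => unfold Bn; have := wj_pos j; positivity

lemma sum_Bn (n : ℕ) : ∑ k ∈ Finset.range n, Bn k ≤ 4 := by
  cases n with
  | zero => simp
  | succ n =>
    rw [Finset.sum_range_succ']
    have h1 : ∑ k ∈ Finset.range n, Bn (k + 1) = 4 * ∑ k ∈ Finset.range n, wj k := by
      rw [Finset.mul_sum]; rfl
    rw [h1]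
    have h2 := sum_wj_lt n
    have h3 : Bn 0 = 2 := rfl
    rw [h3]
    linarith

lemma summable_Bn : Summable Bn :=
  summable_of_sum_range_le Bn_nonneg sum_Bn

lemma kk_weight (n : ℕ) {ψ : ℝ → ℝ} (hψm : Measurable ψ) (hψ0 : ∀ t, 0 ≤ ψ t)
    (h0 : ∀ u, ψ u ≤ Real.exp (|u| / 2))
    (hj : ∀ j < n, ∀ u, ψ (tj j + u) ≤ Kj j * Real.exp (|u| / 2)) :
    Integrable (fun s => kk n s * ψ s) ∧ ∫ s, kk n s * ψ s ≤ Bn n := by
  cases n with
  | zero =>
    have := ker_weight (w := 1) (M := 1) (r := 0) (K := 1) zero_le_one le_rfl hψm hψ0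
      (fun u => by rw [zero_add, one_mul]; exact h0 u)
    refine ⟨this.1, this.2.trans ?_⟩
    unfold Bn
    norm_num
  | succ j =>
    have := ker_weight (w := wj j) (M := Mj j) (r := tj j) (K := Kj j) (wj_pos j).le
      (one_le_Mj j) hψm hψ0 (hj j (Nat.lt_succ_self j))
    refine ⟨this.1, this.2.trans ?_⟩
    have h1 := Mj_ge j
    rw [div_le_iff₀ (by linarith)]
    unfold Kj Bn
    have h2 := wj_pos j
    nlinarith

lemma kk_phi (n : ℕ) : Integrable (fun s => kk n s * phi s) ∧ ∫ s, kk n s * phi s ≤ Bn n :=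
  kk_weight n measurable_phi (fun t => zero_le_one.trans (one_le_phi t)) phi_le_exp
    (fun _ _ u => phi_tj _ u)

lemma kk_ph {n i : ℕ} (h : n ≤ i) :
    Integrable (fun s => kk n s * ph i s) ∧ ∫ s, kk n s * ph i s ≤ Bn n :=
  kk_weight n (measurable_ph i) (fun t => zero_le_one.trans (one_le_ph i t)) (ph_le_exp i)
    (fun j hj u => ph_tj (lt_of_lt_of_le hj h) u)

/-- the partial sums -/
noncomputable def fp (i : ℕ) (s : ℝ) : ℝ := ∑ n ∈ Finset.range (i + 1), kk n s

/-- the function `f` -/
noncomputable def fr (s : ℝ) : ℝ := ∑' n, kk n s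

lemma fp_nonneg (i : ℕ) (s : ℝ) : 0 ≤ fp i s := Finset.sum_nonneg fun n _ => kk_nonneg n s

lemma fp_le_fr (i : ℕ) (s : ℝ) : fp i s ≤ fr s :=
  (summable_kk s).sum_le_tsum _ fun n _ => kk_nonneg n s

lemma fr_nonneg (s : ℝ) : 0 ≤ fr s := tsum_nonneg fun n => kk_nonneg n s

lemma tendsto_fp (s : ℝ) : Tendsto (fun i => fp i s) atTop (𝓝 (fr s)) :=
  ((summable_kk s).hasSum.tendsto_sum_nat).comp (tendsto_add_atTop_nat 1)

lemma measurable_fp (i : ℕ) : Measurable (fp i) := by
  unfold fp
  exact Finset.measurable_fun_sum _ fun n _ => measurable_kk n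

lemma measurable_fr : Measurable fr :=
  measurable_of_tendsto_metrizable measurable_fp
    (tendsto_pi_nhds.2 fun s => tendsto_fp s)

lemma fr_of_nonpos {s : ℝ} (hs : s ≤ 0) : fr s = 0 := by
  unfold fr
  simp [kk_of_nonpos _ hs]

lemma integrable_fr_phi : Integrable (fun s => fr s * phi s) := by
  have hmeas : AEStronglyMeasurable (fun s => fr s * phi s) volume :=
    (measurable_fr.mul measurable_phi).aestronglyMeasurable
  refine ⟨hmeas, ?_⟩
  have hph0 : ∀ s, 0 ≤ phi s := fun s => zero_le_one.trans (one_le_phi s)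
  have h1 : ∀ s, ‖fr s * phi s‖ₑ = ∑' n, ENNReal.ofReal (kk n s * phi s) := by
    intro s
    rw [Real.enorm_of_nonneg (mul_nonneg (fr_nonneg s) (hph0 s)),
      ← ENNReal.ofReal_tsum_of_nonneg (fun n => mul_nonneg (kk_nonneg n s) (hph0 s))
        ((summable_kk s).mul_right _), tsum_mul_right]
    rfl
  unfold HasFiniteIntegral
  simp_rw [h1]
  have hm : ∀ n, AEMeasurable (fun s => ENNReal.ofReal (kk n s * phi s)) volume :=
    fun n => ((measurable_kk n).mul measurable_phi).ennreal_ofReal.aemeasurable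
  rw [lintegral_tsum hm]
  have h2 : ∀ n, ∫⁻ s, ENNReal.ofReal (kk n s * phi s) ≤ ENNReal.ofReal (Bn n) := by
    intro n
    rw [← ofReal_integral_eq_lintegral_ofReal (kk_phi n).1
      (Filter.Eventually.of_forall fun s => mul_nonneg (kk_nonneg n s) (hph0 s))]
    exact ENNReal.ofReal_le_ofReal (kk_phi n).2
  refine (ENNReal.tsum_le_tsum h2).trans_lt ?_
  rw [← ENNReal.ofReal_tsum_of_nonneg Bn_nonneg summable_Bn]
  exact ENNReal.ofReal_lt_top

/-- the approximate annihilation -/
lemma integral_fp_gl (i : ℕ) (τ : ℝ) :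
    ‖∫ s : ℝ, (fp i s : ℂ) * gl (τ + s)‖ ≤ 9 * dl i * ph i τ := by
  have hab := (Mj_lt_succ i).le
  have hph1 := one_le_ph i τ
  have hd := dl_pos i
  -- integrability
  have hI1 : ∀ n ∈ Finset.range (i + 1),
      Integrable (fun s : ℝ => (kk n s : ℂ) * gi i (τ + s)) := by
    intro n hn
    obtain ⟨B, hB0, hB⟩ := exists_bound_G hab (st i).C
    refine (integrable_kk n).ofReal.mul_bdd (c := B)
      (((continuous_gi i).comp (by fun_prop)).aestronglyMeasurable)
      (Filter.Eventually.of_forall fun s => hB _)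
  have hI2 : ∀ n ∈ Finset.range (i + 1),
      Integrable (fun s : ℝ => (kk n s : ℂ) * (gl (τ + s) - gi i (τ + s))) := by
    intro n hn
    have hn' : n ≤ i := by simpa [Nat.lt_succ_iff] using hn
    refine Integrable.mono' (((kk_ph hn').1).mul_const (2 * dl i * ph i τ)) ?_ ?_
    · have h1 := (measurable_kk n).complex_ofReal
      have h2 : Measurable (fun s => gl (τ + s) - gi i (τ + s)) :=
        ((continuous_gl.comp (by fun_prop)).sub
          ((continuous_gi i).comp (by fun_prop))).measurable
      exact (h1.mul h2).aestronglyMeasurable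
    · refine Filter.Eventually.of_forall fun s => ?_
      rw [norm_mul, Complex.norm_real, Real.norm_eq_abs, abs_of_nonneg (kk_nonneg n s)]
      have h3 := gl_dist i (τ + s)
      have h4 := ph_sub i τ s
      have h5 := kk_nonneg n s
      calc kk n s * ‖gl (τ + s) - gi i (τ + s)‖ ≤ kk n s * (2 * dl i * (ph i τ * ph i s)) := by
            gcongr
            exact h3.trans (by gcongr)
        _ = _ := by ring
  have hN2 : ∀ n ∈ Finset.range (i + 1),
      ‖∫ s : ℝ, (kk n s : ℂ) * (gl (τ + s) - gi i (τ + s))‖ ≤ 2 * dl i * ph i τ * Bn n := by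
    intro n hn
    have hn' : n ≤ i := by simpa [Nat.lt_succ_iff] using hn
    refine (norm_integral_le_of_norm_le (((kk_ph hn').1).mul_const (2 * dl i * ph i τ)) ?_).trans ?_
    · refine Filter.Eventually.of_forall fun s => ?_
      rw [norm_mul, Complex.norm_real, Real.norm_eq_abs, abs_of_nonneg (kk_nonneg n s)]
      have h3 := gl_dist i (τ + s)
      have h4 := ph_sub i τ s
      have h5 := kk_nonneg n s
      calc kk n s * ‖gl (τ + s) - gi i (τ + s)‖ ≤ kk n s * (2 * dl i * (ph i τ * ph i s)) := by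
            gcongr
            exact h3.trans (by gcongr)
        _ = _ := by ring
    · rw [integral_mul_const, mul_comm]
      have := (kk_ph hn').2
      gcongr
  have h1 : ∀ s : ℝ, (fp i s : ℂ) * gl (τ + s) =
      (∑ n ∈ Finset.range (i + 1), (kk n s : ℂ) * gi i (τ + s)) +
      ∑ n ∈ Finset.range (i + 1), (kk n s : ℂ) * (gl (τ + s) - gi i (τ + s)) := by
    intro s
    rw [← Finset.sum_add_distrib]
    unfold fp
    push_cast
    rw [Finset.sum_mul]
    refine Finset.sum_congr rfl fun n _ => ?_
    ring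
  simp_rw [h1]
  rw [integral_add (integrable_finsetSum _ hI1) (integrable_finsetSum _ hI2),
    integral_finsetSum _ hI1, integral_finsetSum _ hI2]
  -- main part
  have h2 : ∑ n ∈ Finset.range (i + 1), ∫ s : ℝ, (kk n s : ℂ) * gi i (τ + s) =
      G (Mj i) (Mj (i + 1)) (fun y => (st i).C y * F (st i).T i (y * Complex.I)) τ := by
    unfold gi
    simp_rw [integral_kk_G _ hab (st i).hC τ]
    have hcont : ∀ n ∈ Finset.range (i + 1),
        Continuous fun y : ℝ => (st i).C y * kt n (y * Complex.I) := by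
      intro n _
      refine (st i).hC.mul ?_
      cases n with
      | zero =>
        unfold kt
        apply Continuous.div (by fun_prop) (by fun_prop)
        intro y
        have := ne_of_re (M := 1) (lam := y * Complex.I) (by simp)
        simpa using this
      | succ j =>
        unfold kt
        apply Continuous.div (by fun_prop) (by fun_prop)
        intro y
        exact ne_of_re (by simpa using Mj_pos j)
    rw [← G_sum _ _ _ hcont]
    refine G_congr (fun y => ?_) τ
    rw [← Finset.mul_sum]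
    congr 1
    rw [Finset.sum_range_succ']
    unfold F
    rw [add_comm]
    congr 1
    refine Finset.sum_congr rfl fun j hj => ?_
    unfold Fk kt
    rw [T_eq (by simpa using hj)]
  rw [h2]
  refine (norm_add_le _ _).trans ?_
  have h3 : ‖G (Mj i) (Mj (i + 1)) (fun y => (st i).C y * F (st i).T i (y * Complex.I)) τ‖ ≤
      dl i * ph i τ := (st i).hF τ
  have h4 : ‖∑ n ∈ Finset.range (i + 1), ∫ s : ℝ, (kk n s : ℂ) * (gl (τ + s) - gi i (τ + s))‖ ≤
      2 * dl i * ph i τ * 4 := by
    refine (norm_sum_le _ _).trans ((Finset.sum_le_sum hN2).trans ?_)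
    rw [← Finset.mul_sum]
    have := sum_Bn (i + 1)
    gcongr
  linarith

lemma integral_fr_gl (τ : ℝ) : ∫ s : ℝ, (fr s : ℂ) * gl (τ + s) = 0 := by
  have hph0 : ∀ s, 0 ≤ phi s := fun s => zero_le_one.trans (one_le_phi s)
  have h1 : Tendsto (fun i => ∫ s : ℝ, (fp i s : ℂ) * gl (τ + s)) atTop
      (𝓝 (∫ s : ℝ, (fr s : ℂ) * gl (τ + s))) := by
    refine tendsto_integral_of_dominated_convergence
      (fun s => fr s * phi s * (2 * phi τ)) ?_ ?_ ?_ ?_
    · intro i
      have h2 : Measurable (fun s => gl (τ + s)) := (continuous_gl.comp (by fun_prop)).measurable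
      exact ((measurable_fp i).complex_ofReal.mul h2).aestronglyMeasurable
    · exact integrable_fr_phi.mul_const _
    · intro i
      refine Filter.Eventually.of_forall fun s => ?_
      rw [norm_mul, Complex.norm_real, Real.norm_eq_abs, abs_of_nonneg (fp_nonneg i s)]
      have h3 := norm_gl_le (τ + s)
      have h4 := phi_sub τ s
      have h5 := fp_le_fr i s
      have h6 := fr_nonneg s
      calc fp i s * ‖gl (τ + s)‖ ≤ fr s * (2 * (phi τ * phi s)) := by
            gcongr
            exact h3.trans (by gcongr)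
        _ = _ := by ring
    · refine Filter.Eventually.of_forall fun s => ?_
      have h7 : Tendsto (fun i => (fp i s : ℂ)) atTop (𝓝 (fr s : ℂ)) :=
        (Complex.continuous_ofReal.tendsto _).comp (tendsto_fp s)
      exact h7.mul_const _
  have h2 : Tendsto (fun i => ∫ s : ℝ, (fp i s : ℂ) * gl (τ + s)) atTop (𝓝 0) := by
    refine squeeze_zero_norm (a := fun i => 9 * (1 / 2) ^ i * Real.exp (|τ| / 2)) (fun i => ?_) ?_
    · refine (integral_fp_gl i τ).trans ?_
      have h3 := ph_le_exp i τ
      have h4 : dl i ≤ (1 / 2) ^ i := by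
        unfold dl
        exact pow_le_pow_of_le_one (by norm_num) (by norm_num) (by omega)
      have h5 := one_le_ph i τ
      gcongr
    · have h6 : Tendsto (fun i : ℕ => (1 / 2 : ℝ) ^ i) atTop (𝓝 0) :=
        tendsto_pow_atTop_nhds_zero_of_lt_one (by norm_num) (by norm_num)
      have := (h6.const_mul 9).mul_const (Real.exp (|τ| / 2))
      simpa using this
  exact tendsto_nhds_unique h1 h2

end Pool.Agent.Helper44.WT
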