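import Pool.Agent.Helper44.WT.Chain

/-!
# Explicit parameters and the transforms `F_i`
-/

namespace Pool.Agent.Helper44.WT

open MeasureTheory Filter Set Topology

/-- the rates `M_j = 2^(j+10)` -/
noncomputable def Mj (j : ℕ) : ℝ := 2 ^ (j + 10)

/-- the valley depth `K_j = 2 M_j` -/
noncomputable def Kj (j : ℕ) : ℝ := 2 * Mj j

/-- the coefficients `w_j = 2^{-(j+2)}` -/
noncomputable def wj (j : ℕ) : ℝ := (1 / 2) ^ (j + 2)

lemma Mj_pos (j : ℕ) : 0 < Mj j := by unfold Mj; positivity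

lemma one_le_Mj (j : ℕ) : 1 ≤ Mj j := by unfold Mj; exact one_le_pow₀ (by norm_num)

lemma Mj_ge (j : ℕ) : 1024 ≤ Mj j := by
  unfold Mj
  calc (1024 : ℝ) = 2 ^ 10 := by norm_num
    _ ≤ 2 ^ (j + 10) := pow_le_pow_right₀ (by norm_num) (by omega)

lemma Mj_succ (j : ℕ) : Mj (j + 1) = 2 * Mj j := by unfold Mj; ring

lemma Mj_lt_succ (j : ℕ) : Mj j < Mj (j + 1) := by
  rw [Mj_succ]; linarith [Mj_pos j]

lemma Kj_pos (j : ℕ) : 0 < Kj j := by unfold Kj; linarith [Mj_pos j]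

lemma one_le_Kj (j : ℕ) : 1 ≤ Kj j := by unfold Kj; linarith [one_le_Mj j]

lemma wj_pos (j : ℕ) : 0 < wj j := by unfold wj; positivity

/-- sum of the first coefficients is less than `1/2` -/
lemma sum_wj_lt (i : ℕ) : ∑ j ∈ Finset.range i, wj j < 1 / 2 := by
  have : ∀ i, ∑ j ∈ Finset.range i, wj j = 1 / 2 - (1 / 2) ^ (i + 1) := by
    intro i
    induction i with
    | zero => simp
    | succ n ih =>
      rw [Finset.sum_range_succ, ih]
      unfold wj
      ring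
  rw [this]
  have : (0 : ℝ) < (1 / 2) ^ (i + 1) := by positivity
  linarith

/-- the `j`-th kernel transform -/
noncomputable def Fk (T : ℕ → ℝ) (j : ℕ) (lam : ℂ) : ℂ :=
  (wj j : ℂ) * Complex.exp (lam * T j) / ((Mj j : ℂ) - lam)

/-- transform of the truncated kernel, evaluated at `s = -λ` -/
noncomputable def F (T : ℕ → ℝ) (i : ℕ) (lam : ℂ) : ℂ :=
  1 / (1 - lam) + ∑ j ∈ Finset.range i, Fk T j lam

/-- the multiplier `z_i` -/
noncomputable def zf (T : ℕ → ℝ) (i : ℕ) (lam : ℂ) : ℂ :=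
  -(2 ^ (i + 1)) * (1 - lam / (Mj i : ℂ)) * F T i lam

lemma ne_of_re {M : ℝ} {lam : ℂ} (h : lam.re < M) : (M : ℂ) - lam ≠ 0 := by
  intro h0
  have := congrArg Complex.re h0
  simp at this
  linarith

lemma differentiableOn_F (T : ℕ → ℝ) (i : ℕ) : DifferentiableOn ℂ (F T i) {w | w.re < 1} := by
  unfold F
  apply DifferentiableOn.add
  · apply DifferentiableOn.div (by fun_prop) (by fun_prop)
    intro w hw
    have := ne_of_re (M := 1) hw
    simpa using this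
  · apply DifferentiableOn.fun_sum
    intro j _
    unfold Fk
    apply DifferentiableOn.div (by fun_prop) (by fun_prop)
    intro w hw
    have hw' : w.re < 1 := hw
    exact ne_of_re (lt_of_lt_of_le hw' (one_le_Mj j))

lemma differentiableOn_zf (T : ℕ → ℝ) (i : ℕ) : DifferentiableOn ℂ (zf T i) {w | w.re < 1} := by
  unfold zf
  have := differentiableOn_F T i
  fun_prop

lemma isOpen_half : IsOpen {w : ℂ | w.re < 1} := isOpen_lt (by fun_prop) continuous_const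

lemma continuous_axis {g : ℂ → ℂ} (hg : DifferentiableOn ℂ g {w | w.re < 1}) :
    Continuous fun y : ℝ => g (y * Complex.I) := by
  have h1 : ContinuousOn g {w | w.re < 1} := hg.continuousOn
  rw [← continuousOn_univ]
  refine h1.comp (by fun_prop) ?_
  intro y _
  simp

lemma norm_sub_I {M y : ℝ} : ‖(M : ℂ) - y * Complex.I‖ = Real.sqrt (M ^ 2 + y ^ 2) := by
  rw [Complex.norm_def, Complex.normSq_apply]
  congr 1
  simp
  ring

lemma norm_one_sub_le (M y : ℝ) (hM : 1 ≤ M) :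
    ‖(1 : ℂ) - y * Complex.I‖ ≤ ‖(M : ℂ) - y * Complex.I‖ := by
  have h1 := norm_sub_I (M := 1) (y := y)
  rw [Complex.ofReal_one] at h1
  rw [h1, norm_sub_I]
  apply Real.sqrt_le_sqrt
  nlinarith

lemma norm_one_sub_pos (y : ℝ) : 0 < ‖(1 : ℂ) - y * Complex.I‖ := by
  rw [norm_pos_iff]
  have := ne_of_re (M := 1) (lam := y * Complex.I) (by simp)
  simpa using this

lemma norm_F_le (T : ℕ → ℝ) (i : ℕ) (y : ℝ) :
    ‖F T i (y * Complex.I)‖ ≤ (3 / 2) / ‖(1 : ℂ) - y * Complex.I‖ := by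
  set N := ‖(1 : ℂ) - y * Complex.I‖ with hN
  have hN0 : 0 < N := norm_one_sub_pos y
  unfold F
  refine (norm_add_le _ _).trans ?_
  have h1 : ‖∑ j ∈ Finset.range i, Fk T j (y * Complex.I)‖ ≤ (1 / 2) / N := by
    refine (norm_sum_le _ _).trans ?_
    have h2 : ∀ j ∈ Finset.range i, ‖Fk T j (y * Complex.I)‖ ≤ wj j / N := by
      intro j _
      unfold Fk
      rw [norm_div, norm_mul, Complex.norm_real, Real.norm_eq_abs, abs_of_pos (wj_pos j)]
      have h3 : ‖Complex.exp ((y : ℂ) * Complex.I * (T j : ℂ))‖ = 1 := by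
        rw [Complex.norm_exp]; simp
      rw [h3, mul_one]
      have := norm_one_sub_le (Mj j) y (one_le_Mj j)
      have hw := (wj_pos j).le
      gcongr
    refine (Finset.sum_le_sum h2).trans ?_
    rw [← Finset.sum_div]
    have := (sum_wj_lt i).le
    gcongr
  have h4 : ‖(1 : ℂ) / (1 - y * Complex.I)‖ = 1 / N := by rw [norm_div, norm_one]
  rw [h4]
  calc 1 / N + ‖∑ j ∈ Finset.range i, Fk T j (y * Complex.I)‖ ≤ 1 / N + (1 / 2) / N := by gcongr
    _ = _ := by ring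

/-- the basic bound of the multipliers -/
lemma norm_mult_le (T : ℕ → ℝ) (i k : ℕ) (y : ℝ) (hy : Mj k ≤ y) :
    ‖-(2 ^ (k + 1)) * (1 - y * Complex.I / (Mj k : ℂ)) * F T i (y * Complex.I)‖ ≤ 1 / 128 := by
  have hM := Mj_pos k
  have hy0 : 0 < y := lt_of_lt_of_le hM hy
  have h1 : ‖(1 : ℂ) - y * Complex.I / (Mj k : ℂ)‖ ≤ 1 + y / Mj k := by
    refine (norm_sub_le _ _).trans ?_
    rw [norm_one, norm_div, norm_mul, Complex.norm_real, Complex.norm_real, Complex.norm_I,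
      Real.norm_eq_abs, Real.norm_eq_abs, abs_of_pos hy0, abs_of_pos hM, mul_one]
  have h2 : y ≤ ‖(1 : ℂ) - y * Complex.I‖ := by
    have := norm_sub_I (M := 1) (y := y)
    rw [Complex.ofReal_one] at this
    rw [this]
    apply Real.le_sqrt_of_sq_le
    nlinarith
  have h3 := norm_F_le T i y
  rw [norm_mul, norm_mul, norm_neg, norm_pow, show ‖(2 : ℂ)‖ = 2 by simp]
  have h4 : ‖F T i (y * Complex.I)‖ ≤ (3 / 2) / y := h3.trans (by gcongr)
  calc (2 : ℝ) ^ (k + 1) * ‖(1 : ℂ) - y * Complex.I / (Mj k : ℂ)‖ * ‖F T i (y * Complex.I)‖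
      ≤ (2 : ℝ) ^ (k + 1) * (1 + y / Mj k) * ((3 / 2) / y) := by gcongr
    _ = (2 : ℝ) ^ (k + 1) * (3 / 2) * (1 / y + 1 / Mj k) := by field_simp
    _ ≤ (2 : ℝ) ^ (k + 1) * (3 / 2) * (1 / Mj k + 1 / Mj k) := by gcongr
    _ = 3 / 512 := by
      unfold Mj
      rw [pow_add, pow_add]
      field_simp
      norm_num
    _ ≤ 1 / 128 := by norm_num

lemma norm_zf_le (T : ℕ → ℝ) (i : ℕ) (y : ℝ) (hy : Mj i ≤ y) :
    ‖zf T i (y * Complex.I)‖ ≤ 1 / 128 := norm_mult_le T i i y hy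

/-- `Q` -/
noncomputable def Qf (T : ℕ → ℝ) (i : ℕ) (y : ℝ) : ℂ :=
  -(2 ^ (i + 2)) * (1 - y * Complex.I / (Mj (i + 1) : ℂ)) * F T i (y * Complex.I)

/-- `v` -/
noncomputable def vf (i : ℕ) (y : ℝ) : ℂ :=
  2 * (1 - y * Complex.I / (Mj (i + 1) : ℂ)) / (1 - y * Complex.I / (Mj i : ℂ))

lemma one_sub_div_ne (i : ℕ) (y : ℝ) : (1 : ℂ) - y * Complex.I / (Mj i : ℂ) ≠ 0 := by
  intro h
  have h1 := congrArg Complex.re h
  have h2 : ((y : ℂ) * Complex.I / (Mj i : ℂ)).re = 0 := by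
    rw [Complex.div_ofReal_re]; simp
  rw [Complex.sub_re, h2] at h1
  simp at h1

lemma continuous_one_sub_div (i : ℕ) :
    Continuous fun y : ℝ => (1 : ℂ) - y * Complex.I / (Mj i : ℂ) := by
  fun_prop

lemma continuous_vf (i : ℕ) : Continuous (vf i) := by
  unfold vf
  apply Continuous.div (by fun_prop) (by fun_prop)
  exact one_sub_div_ne i

lemma continuous_Fax (T : ℕ → ℝ) (i : ℕ) : Continuous fun y : ℝ => F T i (y * Complex.I) :=
  continuous_axis (differentiableOn_F T i)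

lemma continuous_zax (T : ℕ → ℝ) (i : ℕ) : Continuous fun y : ℝ => zf T i (y * Complex.I) :=
  continuous_axis (differentiableOn_zf T i)

lemma continuous_Qf (T : ℕ → ℝ) (i : ℕ) : Continuous (Qf T i) := by
  unfold Qf
  have := continuous_Fax T i
  fun_prop

lemma Qf_eq (T : ℕ → ℝ) (i : ℕ) (y : ℝ) : Qf T i y = vf i y * zf T i (y * Complex.I) := by
  unfold Qf vf zf
  have := one_sub_div_ne i y
  field_simp
  ring

lemma norm_Qf_le (T : ℕ → ℝ) (i : ℕ) (y : ℝ) (hy : Mj (i + 1) ≤ y) : ‖Qf T i y‖ ≤ 1 / 128 :=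
  norm_mult_le T i (i + 1) y hy

lemma norm_vf_le (i : ℕ) (y : ℝ) : ‖vf i y‖ ≤ 2 := by
  unfold vf
  rw [norm_div, norm_mul, show ‖(2 : ℂ)‖ = 2 by simp]
  have hpos : 0 < ‖(1 : ℂ) - y * Complex.I / (Mj i : ℂ)‖ := norm_pos_iff.2 (one_sub_div_ne i y)
  rw [div_le_iff₀ hpos]
  have key : ∀ k, ‖(1 : ℂ) - y * Complex.I / (Mj k : ℂ)‖ = Real.sqrt (1 + (y / Mj k) ^ 2) := by
    intro k
    have : (1 : ℂ) - y * Complex.I / (Mj k : ℂ) = ((1 : ℝ) : ℂ) - ((y / Mj k : ℝ) : ℂ) * Complex.I := by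
      push_cast; ring
    rw [this, norm_sub_I, one_pow]
  rw [key, key]
  have h1 : Real.sqrt (1 + (y / Mj (i + 1)) ^ 2) ≤ Real.sqrt (1 + (y / Mj i) ^ 2) := by
    apply Real.sqrt_le_sqrt
    have h2 : (y / Mj (i + 1)) ^ 2 ≤ (y / Mj i) ^ 2 := by
      rw [div_pow, div_pow]
      have h3 := Mj_pos i
      have h4 := (Mj_lt_succ i).le
      gcongr
    linarith
  linarith

lemma F_update (T : ℕ → ℝ) (i : ℕ) (τ : ℝ) (lam : ℂ) :
    F (Function.update T i τ) (i + 1) lam =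
      F T i lam + (wj i : ℂ) * Complex.exp (lam * τ) / ((Mj i : ℂ) - lam) := by
  unfold F
  rw [Finset.sum_range_succ]
  have h1 : ∀ j ∈ Finset.range i, Fk (Function.update T i τ) j lam = Fk T j lam := by
    intro j hj
    unfold Fk
    rw [Function.update_of_ne (by simp at hj; omega)]
  rw [Finset.sum_congr rfl h1]
  unfold Fk
  rw [Function.update_self]
  ring

lemma zf_update (T : ℕ → ℝ) (i : ℕ) (τ : ℝ) (y : ℝ) :
    zf (Function.update T i τ) (i + 1) (y * Complex.I) = znew (Qf T i) (vf i) (Kj i) τ y := by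
  unfold zf znew
  rw [F_update]
  unfold Qf vf
  have h0 := one_sub_div_ne i y
  have hM : (Mj i : ℂ) ≠ 0 := by exact_mod_cast (Mj_pos i).ne'
  have h1 : ((Mj i : ℂ) - y * Complex.I) = (Mj i : ℂ) * (1 - y * Complex.I / (Mj i : ℂ)) := by
    field_simp
  have h2 : (Yf (Kj i) τ y)⁻¹ = (2 * (Mj i : ℂ))⁻¹ * Complex.exp (y * Complex.I * τ) := by
    unfold Yf Kj
    rw [mul_inv, ← Complex.exp_neg]
    congr 1
    · push_cast; rfl
    · congr 1; push_cast; ring
  rw [h2, h1]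
  have h3 : ((wj i : ℝ) : ℂ) = ((2 : ℂ) ^ (i + 2))⁻¹ := by
    unfold wj
    push_cast
    rw [one_div, inv_pow]
  rw [h3]
  have h4 : (2 : ℂ) ^ (i + 2) ≠ 0 := pow_ne_zero _ two_ne_zero
  have h5 : (2 : ℂ) ^ (i + 1 + 1) = 2 ^ (i + 2) := by ring
  rw [h5]
  generalize (2 : ℂ) ^ (i + 2) = A at *
  generalize (1 : ℂ) - y * Complex.I / (Mj i : ℂ) = B at *
  generalize (1 : ℂ) - y * Complex.I / (Mj (i + 1) : ℂ) = B' at *
  generalize Complex.exp (y * Complex.I * τ) = E at *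
  field_simp
  ring

end Pool.Agent.Helper44.WT
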