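import Pool.Agent.Helper44.WT.Step

/-!
# The initial stage, the sequence of stages, the limit weight and the limit functional
-/

namespace Pool.Agent.Helper44.WT

open MeasureTheory Filter Set Topology

lemma norm_F_le' (T : ℕ → ℝ) (i : ℕ) (y : ℝ) (hy : 1024 ≤ y) :
    ‖F T i (y * Complex.I)‖ ≤ 1 / 8 := by
  have h2 : y ≤ ‖(1 : ℂ) - y * Complex.I‖ := by
    have := norm_sub_I (M := 1) (y := y)
    rw [Complex.ofReal_one] at this
    rw [this]
    apply Real.le_sqrt_of_sq_le
    nlinarith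
  refine (norm_F_le T i y).trans ?_
  rw [div_le_iff₀ (by linarith)]
  linarith

/-- the initial stage -/
noncomputable def stage0 : Stage 0 where
  φ := fun t => Real.exp (|t| / 2)
  ξ := 1 / 2
  T := fun _ => 0
  C := fun _ => ((1 / Mj 0 : ℝ) : ℂ)
  hξ := by norm_num
  hξ2 := by norm_num
  hexp := fun t => by
    apply Real.exp_le_exp.2
    linarith
  hcap := ⟨1, fun t => by
    rw [one_mul]
    apply Real.exp_le_exp.2
    linarith⟩
  hφ0 := fun t => le_rfl
  hsub := fun s t => by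
    rw [← Real.exp_add]
    apply Real.exp_le_exp.2
    linarith [abs_add_le s t]
  hmeas := by fun_prop
  hT := fun j hj => by omega
  hT0 := fun j hj => by omega
  hC := continuous_const
  hA := fun t => by
    have hM := Mj_pos 0
    have h1 : ‖G (Mj 0) (Mj (0 + 1)) (fun _ => ((1 / Mj 0 : ℝ) : ℂ)) t‖ ≤
        ∫ y in (Mj 0)..(Mj (0 + 1)), (1 / Mj 0 : ℝ) := by
      refine norm_G_le_of_le (Mj_lt_succ 0).le continuous_const continuous_const
        (fun y _ => ?_) t
      rw [Complex.norm_real, Real.norm_eq_abs, abs_of_pos (by positivity)]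
    rw [intervalIntegral.integral_const, smul_eq_mul] at h1
    have h2 : (Mj (0 + 1) - Mj 0) * (1 / Mj 0) = 1 := by rw [Mj_succ]; field_simp; ring
    rw [h2] at h1
    have h3 : 1 ≤ Real.exp (|t| / 2) := Real.one_le_exp (by positivity)
    refine h1.trans ?_
    have h4 : (2 - (1 / 2 : ℝ) ^ 0) = 1 := by norm_num
    rw [h4, one_mul]
    exact h3
  hH := fun n t => by
    have hM := Mj_pos 0
    have h1 : ‖G (Mj 0) (Mj (0 + 1)) (fun y => ((1 / Mj 0 : ℝ) : ℂ) *
        zf (fun _ => 0) 0 (y * Complex.I) ^ (n + 1)) t‖ ≤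
        ∫ y in (Mj 0)..(Mj (0 + 1)), (1 / Mj 0 : ℝ) * (1 / 128) ^ (n + 1) := by
      refine norm_G_le_of_le (Mj_lt_succ 0).le
        (continuous_const.mul ((continuous_zax (fun _ => 0) 0).pow _)) continuous_const
        (fun y hy => ?_) t
      change ‖((1 / Mj 0 : ℝ) : ℂ) * zf (fun _ => 0) 0 (y * Complex.I) ^ (n + 1)‖ ≤ _
      rw [norm_mul, norm_pow, Complex.norm_real, Real.norm_eq_abs, abs_of_pos (by positivity)]
      have := norm_zf_le (fun _ => 0) 0 y hy.1
      gcongr
    rw [intervalIntegral.integral_const, smul_eq_mul] at h1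
    have h2 : (Mj (0 + 1) - Mj 0) * (1 / Mj 0 * (1 / 128) ^ (n + 1)) = (1 / 128) ^ (n + 1) := by
      rw [Mj_succ]; field_simp; ring
    rw [h2] at h1
    have h3 : 1 ≤ Real.exp (|t| / 2) := Real.one_le_exp (by positivity)
    calc _ ≤ (2 : ℝ) ^ (n + 1) * (1 / 128) ^ (n + 1) := by
          apply mul_le_mul_of_nonneg_left h1 (by positivity)
      _ = (1 / 64 : ℝ) ^ (n + 1) := by rw [← mul_pow]; norm_num
      _ ≤ (1 / 64 : ℝ) ^ 1 := pow_le_pow_of_le_one (by norm_num) (by norm_num) (by omega)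
      _ ≤ dl 0 * Real.exp (|t| / 2) := by unfold dl; norm_num; linarith
  hF := fun t => by
    have hM := Mj_pos 0
    have h1 : ‖G (Mj 0) (Mj (0 + 1)) (fun y => ((1 / Mj 0 : ℝ) : ℂ) *
        F (fun _ => 0) 0 (y * Complex.I)) t‖ ≤
        ∫ y in (Mj 0)..(Mj (0 + 1)), (1 / Mj 0 : ℝ) * (1 / 8) := by
      refine norm_G_le_of_le (Mj_lt_succ 0).le
        (continuous_const.mul (continuous_Fax (fun _ => 0) 0)) continuous_const
        (fun y hy => ?_) t
      change ‖((1 / Mj 0 : ℝ) : ℂ) * F (fun _ => 0) 0 (y * Complex.I)‖ ≤ _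
      rw [norm_mul, Complex.norm_real, Real.norm_eq_abs, abs_of_pos (by positivity)]
      have := norm_F_le' (fun _ => 0) 0 y ((Mj_ge 0).trans hy.1)
      gcongr
    rw [intervalIntegral.integral_const, smul_eq_mul] at h1
    have h2 : (Mj (0 + 1) - Mj 0) * (1 / Mj 0 * (1 / 8)) = 1 / 8 := by
      rw [Mj_succ]; field_simp; ring
    rw [h2] at h1
    have h3 : 1 ≤ Real.exp (|t| / 2) := Real.one_le_exp (by positivity)
    have h4 : dl 0 = 1 / 8 := by unfold dl; norm_num
    refine h1.trans ?_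
    rw [h4]
    linarith

/-- the sequence of stages -/
noncomputable def st : (i : ℕ) → Stage i
  | 0 => stage0
  | i + 1 => (exists_next (st i)).choose

lemma st_zero : st 0 = stage0 := rfl

lemma next_st (i : ℕ) : Next (st i) (st (i + 1)) := (exists_next (st i)).choose_spec

/-- positions of the kernels -/
noncomputable def tj (j : ℕ) : ℝ := (st (j + 1)).T j

lemma T_eq {i j : ℕ} (h : j < i) : (st i).T j = tj j := by
  induction i with
  | zero => omega
  | succ n ih =>
    rcases Nat.lt_succ_iff_lt_or_eq.1 h with h1 | h1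
    · rw [(next_st n).hT j h1, ih h1]
    · subst h1; rfl

lemma tj_nonneg (j : ℕ) : 0 ≤ tj j := (st (j + 1)).hT0 j (Nat.lt_succ_self j)

/-- the weights -/
noncomputable def ph (i : ℕ) (t : ℝ) : ℝ := (st i).φ t

lemma ph_anti (t : ℝ) : Antitone fun i => ph i t :=
  antitone_nat_of_succ_le fun i => (next_st i).hφ t

lemma one_le_ph (i : ℕ) (t : ℝ) : 1 ≤ ph i t :=
  (Real.one_le_exp (mul_nonneg (st i).hξ.le (abs_nonneg t))).trans ((st i).hexp t)

lemma ph_sub (i : ℕ) (s t : ℝ) : ph i (s + t) ≤ ph i s * ph i t := (st i).hsub s t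

lemma ph_tj {i j : ℕ} (h : j < i) (u : ℝ) : ph i (tj j + u) ≤ Kj j * Real.exp (|u| / 2) := by
  have := (st i).hT j h u
  rwa [T_eq h] at this

lemma ph_le_exp (i : ℕ) (t : ℝ) : ph i t ≤ Real.exp (|t| / 2) := (st i).hφ0 t

/-- the limit weight -/
noncomputable def phi (t : ℝ) : ℝ := ⨅ i, ph i t

lemma bdd_ph (t : ℝ) : BddBelow (Set.range fun i => ph i t) :=
  ⟨1, by rintro _ ⟨i, rfl⟩; exact one_le_ph i t⟩

lemma phi_le (i : ℕ) (t : ℝ) : phi t ≤ ph i t := ciInf_le (bdd_ph t) i

lemma one_le_phi (t : ℝ) : 1 ≤ phi t := le_ciInf fun i => one_le_ph i t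

lemma le_mul_phi {A x t : ℝ} (hA : 0 ≤ A) (h : ∀ i, x ≤ A * ph i t) : x ≤ A * phi t := by
  unfold phi
  rw [Real.mul_iInf_of_nonneg hA]
  exact le_ciInf h

lemma phi_sub (s t : ℝ) : phi (s + t) ≤ phi s * phi t := by
  apply le_mul_phi (zero_le_one.trans (one_le_phi s))
  intro i
  rw [mul_comm]
  apply le_mul_phi (zero_le_one.trans (one_le_ph i t))
  intro k
  rw [mul_comm]
  refine (phi_le (max i k) _).trans ((ph_sub _ s t).trans ?_)
  have h1 : ph (max i k) s ≤ ph k s := ph_anti s (le_max_right i k)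
  have h2 : ph (max i k) t ≤ ph i t := ph_anti t (le_max_left i k)
  have h3 := one_le_ph (max i k) s
  have h4 := one_le_ph (max i k) t
  exact mul_le_mul h1 h2 (by linarith) (by linarith)

lemma measurable_ph (i : ℕ) : Measurable (ph i) := (st i).hmeas

lemma measurable_phi : Measurable phi := by
  unfold phi
  exact Measurable.iInf fun i => measurable_ph i

lemma phi_tj (j : ℕ) (u : ℝ) : phi (tj j + u) ≤ Kj j * Real.exp (|u| / 2) :=
  (phi_le (j + 1) _).trans (ph_tj (Nat.lt_succ_self j) u)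

lemma phi_le_exp (t : ℝ) : phi t ≤ Real.exp (|t| / 2) := (phi_le 0 t).trans (ph_le_exp 0 t)

lemma log_phi_small {ε : ℝ} (hε : 0 < ε) : ∃ B : ℝ, 0 ≤ B ∧ ∀ t : ℝ,
    0 ≤ Real.log (phi t) ∧ Real.log (phi t) ≤ B + ε * |t| := by
  obtain ⟨i, hi⟩ : ∃ i : ℕ, (1 / 2 : ℝ) ^ (i + 1) < ε := by
    obtain ⟨n, hn⟩ := exists_pow_lt_of_lt_one hε (by norm_num : (1 / 2 : ℝ) < 1)
    refine ⟨n, lt_of_le_of_lt ?_ hn⟩
    exact pow_le_pow_of_le_one (by norm_num) (by norm_num) (by omega)
  obtain ⟨A, hA⟩ := (st i).hcap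
  have hA1 : 1 ≤ A := by
    have h1 := hA 0
    have h2 := one_le_ph i 0
    simp only [abs_zero, mul_zero, Real.exp_zero, mul_one] at h1
    exact h2.trans h1
  refine ⟨Real.log A, Real.log_nonneg hA1, fun t => ⟨Real.log_nonneg (one_le_phi t), ?_⟩⟩
  have h1 : phi t ≤ A * Real.exp ((st i).ξ * |t|) := (phi_le i t).trans (hA t)
  have h2 : Real.log (phi t) ≤ Real.log (A * Real.exp ((st i).ξ * |t|)) :=
    Real.log_le_log (by linarith [one_le_phi t]) h1
  rw [Real.log_mul (by linarith) (Real.exp_pos _).ne', Real.log_exp] at h2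
  have h3 : (st i).ξ * |t| ≤ ε * |t| := by
    have := (st i).hξ2
    gcongr
    linarith
  linarith

lemma log_phi_div_small {ε : ℝ} (hε : 0 < ε) : ∃ R : ℝ, 0 < R ∧ ∀ t : ℝ, R ≤ |t| →
    |Real.log (phi t) / t| ≤ ε := by
  obtain ⟨B, hB0, hB⟩ := log_phi_small (half_pos hε)
  refine ⟨2 * B / ε + 1, by positivity, fun t ht => ?_⟩
  obtain ⟨h1, h2⟩ := hB t
  have h3 : 0 < |t| := by
    have : (0 : ℝ) < 2 * B / ε + 1 := by positivity
    linarith
  rw [abs_div, abs_of_nonneg h1, div_le_iff₀ h3]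
  have h4 : 2 * B / ε ≤ |t| := by linarith
  rw [div_le_iff₀ hε] at h4
  linarith

lemma tendsto_log_phi_atTop : Tendsto (fun t => Real.log (phi t) / t) atTop (𝓝 0) := by
  rw [Metric.tendsto_atTop]
  intro ε hε
  obtain ⟨R, hR0, hR⟩ := log_phi_div_small (half_pos hε)
  refine ⟨R, fun t ht => ?_⟩
  rw [Real.dist_eq, sub_zero]
  have := hR t (ht.trans (le_abs_self t))
  linarith

lemma tendsto_log_phi_atBot : Tendsto (fun t => Real.log (phi t) / t) atBot (𝓝 0) := by
  rw [Metric.tendsto_nhds]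
  intro ε hε
  obtain ⟨R, hR0, hR⟩ := log_phi_div_small (half_pos hε)
  filter_upwards [eventually_le_atBot (-R)] with t ht
  rw [Real.dist_eq, sub_zero]
  have := hR t (by
    have := neg_abs_le t
    linarith)
  linarith

/-! ### the limit functional -/

/-- approximating functionals -/
noncomputable def gi (i : ℕ) (t : ℝ) : ℂ := G (Mj i) (Mj (i + 1)) (st i).C t

lemma continuous_gi (i : ℕ) : Continuous (gi i) := continuous_G _ _ (st i).hC

lemma norm_gi_le (i : ℕ) (t : ℝ) : ‖gi i t‖ ≤ 2 * ph i t := by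
  refine ((st i).hA t).trans ?_
  have h1 : (0 : ℝ) ≤ (1 / 2) ^ i := by positivity
  have h2 := one_le_ph i t
  change _ * ph i t ≤ _
  gcongr
  linarith

lemma gi_diff (i : ℕ) (t : ℝ) : ‖gi (i + 1) t - gi i t‖ ≤ dl i * ph i t := (next_st i).hdiff t

lemma gi_diff0 (i : ℕ) (t : ℝ) :
    ‖gi (i + 1) t - gi i t‖ ≤ (1 / 2) ^ i * (Real.exp (|t| / 2) / 8) := by
  refine (gi_diff i t).trans ?_
  have h1 := ph_le_exp i t
  have h2 := dl_pos i
  calc dl i * ph i t ≤ dl i * Real.exp (|t| / 2) := by gcongr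
    _ = _ := by unfold dl; ring

/-- the limit functional -/
noncomputable def gl (t : ℝ) : ℂ := gi 0 t + ∑' i, (gi (i + 1) t - gi i t)

lemma summable_diff (t : ℝ) : Summable fun i => (gi (i + 1) t - gi i t) := by
  refine Summable.of_norm_bounded ?_ (fun i => gi_diff0 i t)
  exact Summable.mul_right _ (summable_geometric_of_lt_one (by norm_num) (by norm_num))

lemma tendsto_gi (t : ℝ) : Tendsto (fun i => gi i t) atTop (𝓝 (gl t)) := by
  have h1 := (summable_diff t).hasSum.tendsto_sum_nat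
  have h2 : ∀ n, ∑ i ∈ Finset.range n, (gi (i + 1) t - gi i t) = gi n t - gi 0 t :=
    fun n => Finset.sum_range_sub (fun i => gi i t) n
  simp_rw [h2] at h1
  have h3 := h1.const_add (gi 0 t)
  refine (h3.congr fun n => ?_)
  ring

lemma continuous_gl : Continuous gl := by
  have h1 : gl = fun t => gi 0 t + (Real.exp (|t| / 2) : ℂ) *
      ∑' i, ((Real.exp (-(|t| / 2)) : ℝ) : ℂ) * (gi (i + 1) t - gi i t) := by
    funext t
    rw [tsum_mul_left, ← mul_assoc, ← Complex.ofReal_mul, ← Real.exp_add, add_neg_cancel,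
      Real.exp_zero, Complex.ofReal_one, one_mul]
    rfl
  rw [h1]
  refine (continuous_gi 0).add (Continuous.mul (by fun_prop) ?_)
  refine continuous_tsum (u := fun i => (1 / 2 : ℝ) ^ i * (1 / 8)) (fun i => ?_) ?_ ?_
  · have := continuous_gi (i + 1)
    have := continuous_gi i
    fun_prop
  · exact Summable.mul_right _ (summable_geometric_of_lt_one (by norm_num) (by norm_num))
  · intro i t
    rw [norm_mul, Complex.norm_real, Real.norm_eq_abs, abs_of_pos (Real.exp_pos _)]
    calc Real.exp (-(|t| / 2)) * ‖gi (i + 1) t - gi i t‖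
        ≤ Real.exp (-(|t| / 2)) * ((1 / 2) ^ i * (Real.exp (|t| / 2) / 8)) := by
          gcongr; exact gi_diff0 i t
      _ = (Real.exp (-(|t| / 2)) * Real.exp (|t| / 2)) * ((1 / 2) ^ i * (1 / 8)) := by ring
      _ = _ := by rw [← Real.exp_add]; simp

lemma norm_gl_le (t : ℝ) : ‖gl t‖ ≤ 2 * phi t := by
  apply le_mul_phi (by norm_num)
  intro i
  refine le_of_tendsto (tendsto_gi t).norm ?_
  filter_upwards [eventually_ge_atTop i] with k hk
  refine (norm_gi_le k t).trans ?_
  have : ph k t ≤ ph i t := ph_anti t hk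
  gcongr

lemma gi_dist (i n : ℕ) (t : ℝ) : ‖gi (i + n) t - gi i t‖ ≤ 2 * dl i * ph i t := by
  have h1 : ∀ n, ‖gi (i + n) t - gi i t‖ ≤ (2 * dl i - 2 * dl (i + n)) * ph i t := by
    intro n
    induction n with
    | zero => simp
    | succ n ih =>
      have h2 : gi (i + (n + 1)) t - gi i t =
          (gi (i + n + 1) t - gi (i + n) t) + (gi (i + n) t - gi i t) := by
        rw [← add_assoc]; ring
      rw [h2]
      refine (norm_add_le _ _).trans ?_
      have h3 := gi_diff (i + n) t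
      have h4 : ph (i + n) t ≤ ph i t := ph_anti t (by omega)
      have h5 := dl_pos (i + n)
      have h6 : dl (i + n) * ph (i + n) t ≤ dl (i + n) * ph i t := by gcongr
      have h7 : 2 * dl (i + (n + 1)) = dl (i + n) := by unfold dl; ring
      rw [h7]
      calc _ ≤ dl (i + n) * ph i t + (2 * dl i - 2 * dl (i + n)) * ph i t := by
            linarith
        _ = _ := by ring
  refine (h1 n).trans ?_
  have h5 := dl_pos (i + n)
  have h6 := one_le_ph i t
  gcongr
  linarith

lemma gl_dist (i : ℕ) (t : ℝ) : ‖gl t - gi i t‖ ≤ 2 * dl i * ph i t := by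
  have h1 : Tendsto (fun n => ‖gi (i + n) t - gi i t‖) atTop (𝓝 ‖gl t - gi i t‖) := by
    have h2 : Tendsto (fun n => i + n) atTop atTop :=
      tendsto_atTop_mono (fun n => Nat.le_add_left n i) tendsto_id
    exact (((tendsto_gi t).comp h2).sub_const _).norm
  exact le_of_tendsto h1 (Filter.Eventually.of_forall fun n => gi_dist i n t)

lemma gi_zero_zero : gi 0 0 = 1 := by
  unfold gi G
  change ∫ y in (Mj 0)..(Mj (0 + 1)), ((1 / Mj 0 : ℝ) : ℂ) *
    Complex.exp ((y * 0 : ℝ) * Complex.I) = 1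
  simp only [mul_zero, Complex.ofReal_zero, zero_mul, Complex.exp_zero, mul_one]
  rw [intervalIntegral.integral_const, Mj_succ, Complex.real_smul, ← Complex.ofReal_mul]
  have hM := Mj_pos 0
  have h2 : (2 * Mj 0 - Mj 0) * (1 / Mj 0) = 1 := by field_simp; ring
  rw [h2]
  simp

lemma gl_zero_ne : gl 0 ≠ 0 := by
  intro h
  have h1 := gl_dist 0 0
  rw [h, gi_zero_zero, zero_sub, norm_neg, norm_one] at h1
  have h2 := ph_le_exp 0 0
  simp only [abs_zero, zero_div, Real.exp_zero] at h2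
  have h3 : dl 0 = 1 / 8 := by unfold dl; norm_num
  rw [h3] at h1
  linarith

end Pool.Agent.Helper44.WT
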