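import Pool.Agent.Helper44.WT.Weight
import Pool.Agent.Helper44.WT.Approx

/-!
# The inductive step
-/

namespace Pool.Agent.Helper44.WT

open MeasureTheory Filter Set Topology

/-- error tolerances -/
noncomputable def dl (i : ℕ) : ℝ := (1 / 2) ^ (i + 3)

lemma dl_pos (i : ℕ) : 0 < dl i := by unfold dl; positivity

lemma dl_le (i : ℕ) : dl i ≤ 1 / 8 := by
  unfold dl
  calc ((1 : ℝ) / 2) ^ (i + 3) ≤ (1 / 2) ^ 3 :=
        pow_le_pow_of_le_one (by norm_num) (by norm_num) (by omega)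
    _ = 1 / 8 := by norm_num

/-- the data at stage `i` -/
structure Stage (i : ℕ) where
  φ : ℝ → ℝ
  ξ : ℝ
  T : ℕ → ℝ
  C : ℝ → ℂ
  hξ : 0 < ξ
  hξ2 : ξ ≤ (1 / 2) ^ (i + 1)
  hexp : ∀ t, Real.exp (ξ * |t|) ≤ φ t
  hcap : ∃ A : ℝ, ∀ t, φ t ≤ A * Real.exp (ξ * |t|)
  hφ0 : ∀ t, φ t ≤ Real.exp (|t| / 2)
  hsub : ∀ s t, φ (s + t) ≤ φ s * φ t
  hmeas : Measurable φ
  hT : ∀ j < i, ∀ u, φ (T j + u) ≤ Kj j * Real.exp (|u| / 2)
  hT0 : ∀ j < i, 0 ≤ T j
  hC : Continuous C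
  hA : ∀ t, ‖G (Mj i) (Mj (i + 1)) C t‖ ≤ (2 - (1 / 2) ^ i) * φ t
  hH : ∀ n : ℕ, ∀ t, 2 ^ (n + 1) *
    ‖G (Mj i) (Mj (i + 1)) (fun y => C y * zf T i (y * Complex.I) ^ (n + 1)) t‖ ≤ dl i * φ t
  hF : ∀ t, ‖G (Mj i) (Mj (i + 1)) (fun y => C y * F T i (y * Complex.I)) t‖ ≤ dl i * φ t

/-- relation between consecutive stages -/
structure Next {i : ℕ} (S : Stage i) (S' : Stage (i + 1)) : Prop where
  hT : ∀ j < i, S'.T j = S.T j
  hφ : ∀ t, S'.φ t ≤ S.φ t
  hdiff : ∀ t, ‖G (Mj (i + 1)) (Mj (i + 2)) S'.C t - G (Mj i) (Mj (i + 1)) S.C t‖ ≤ dl i * S.φ t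

/-- a version of decoupling for `m ≥ 1`, relative to the old weight -/
lemma decouple0 {φ : ℝ → ℝ} {ξ : ℝ} (hξ : 0 < ξ) (hφ : ∀ t, Real.exp (ξ * |t|) ≤ φ t)
    {a b : ℝ} (hab : a ≤ b) {K : ℝ} (hK : 1 ≤ K) (s : Finset ℤ) (h0 : (0 : ℤ) ∉ s)
    (D : ℤ → ℝ → ℂ) (hD : ∀ m ∈ s, Continuous (D m)) {ε : ℝ} (hε : 0 < ε) :
    ∀ᶠ T : ℝ in atTop, ∀ t : ℝ,
      ‖G a b (fun y => ∑ m ∈ s, D m y * Yf K T y ^ m) t‖ ≤ ε * φ t := by
  have hK0 : 0 < K := by linarith
  set ε' : ℝ := ε / (s.card + 1) with hε'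
  have hε'0 : 0 < ε' := by positivity
  have h1 : ∀ᶠ T : ℝ in atTop, ∀ m ∈ s, ∀ m' : ℕ, (m' : ℤ) ≠ m → ∀ t : ℝ,
      K ^ m * ‖G a b (D m) (t - m * T)‖ ≤ ε' * φ (t - m' * T) := by
    rw [Filter.eventually_all_finset]
    intro m _
    exact translate_small hξ hφ hab (D m) hK0 m hε'0
  filter_upwards [h1] with T hT t
  have hφ0 : 0 < φ t := (Real.exp_pos _).trans_le (hφ _)
  rw [G_sum a b s (D := fun m y => D m y * Yf K T y ^ m)
    (fun m hm => (hD m hm).mul (continuous_Yf_zpow T m))]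
  have h2 : ∀ m ∈ s, ‖G a b (fun y => D m y * Yf K T y ^ m) t‖ ≤ ε' * φ t := by
    intro m hm
    rw [norm_G_Yf hK0]
    have := hT m hm 0 (by rintro rfl; exact h0 hm) t
    simpa using this
  refine (norm_sum_le _ _).trans ((Finset.sum_le_sum h2).trans ?_)
  rw [Finset.sum_const, nsmul_eq_mul, ← mul_assoc]
  have : (s.card : ℝ) * ε' ≤ ε := by
    rw [hε', mul_div_assoc', div_le_iff₀ (by positivity)]
    nlinarith
  gcongr

/-- coefficients of the chain itself -/
noncomputable def chD (z Cb : ℝ → ℂ) (m : ℤ) (y : ℝ) : ℂ := Cb y * z y ^ m.toNat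

lemma continuous_chD {z Cb : ℝ → ℂ} (hz : Continuous z) (hCb : Continuous Cb) (m : ℤ) :
    Continuous (chD z Cb m) := by
  unfold chD; fun_prop

lemma chainC_eq (z Cb : ℝ → ℂ) (K T : ℝ) (n0 : ℕ) (y : ℝ) :
    chainC z Cb K T n0 y =
      ∑ m ∈ Finset.Icc (0 : ℤ) n0, chD z Cb m y * Yf K T y ^ m := by
  unfold chainC chD
  have h1 : Finset.Icc (0 : ℤ) n0 = (Finset.range (n0 + 1)).image (fun m : ℕ => (m : ℤ)) := by
    ext m
    simp only [Finset.mem_Icc, Finset.mem_image, Finset.mem_range]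
    constructor
    · rintro ⟨h1, h2⟩
      exact ⟨m.toNat, by omega, by omega⟩
    · rintro ⟨k, hk, rfl⟩
      omega
  rw [h1, Finset.sum_image (by intro a _ b _ h; simpa using h), Finset.mul_sum]
  refine Finset.sum_congr rfl fun m _ => ?_
  rw [Int.toNat_natCast, zpow_natCast, mul_pow]
  ring

lemma chainC_eq' (z Cb : ℝ → ℂ) (K T : ℝ) (n0 : ℕ) (y : ℝ) :
    chainC z Cb K T n0 y = Cb y +
      ∑ m ∈ Finset.Icc (1 : ℤ) n0, chD z Cb m y * Yf K T y ^ m := by
  rw [chainC_eq]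
  have h1 : Finset.Icc (0 : ℤ) n0 = insert 0 (Finset.Icc (1 : ℤ) n0) := by
    ext m
    simp only [Finset.mem_Icc, Finset.mem_insert]
    omega
  rw [h1, Finset.sum_insert (by simp)]
  simp [chD]

lemma continuous_chainC {z Cb : ℝ → ℂ} (hz : Continuous z) (hCb : Continuous Cb) (K T : ℝ)
    (n0 : ℕ) : Continuous (chainC z Cb K T n0) := by
  unfold chainC
  have := continuous_Yf K T
  fun_prop

lemma norm_chainC_le {z Cb : ℝ → ℂ} {K : ℝ} (hK : 1 ≤ K) (T : ℝ) (n0 : ℕ) {y : ℝ}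
    (hz : ‖z y‖ ≤ 1 / 128) : ‖chainC z Cb K T n0 y‖ ≤ ((n0 + 1) * K ^ n0) * ‖Cb y‖ := by
  unfold chainC
  rw [norm_mul, mul_comm]
  have h1 : ‖∑ m ∈ Finset.range (n0 + 1), (z y * Yf K T y) ^ m‖ ≤ (n0 + 1) * K ^ n0 := by
    refine (norm_sum_le _ _).trans ?_
    have h2 : ∀ m ∈ Finset.range (n0 + 1), ‖(z y * Yf K T y) ^ m‖ ≤ K ^ n0 := by
      intro m hm
      rw [norm_pow, norm_mul, norm_Yf (by linarith)]
      have h3 : ‖z y‖ * K ≤ K := by
        have : ‖z y‖ ≤ 1 := by linarith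
        nlinarith
      calc (‖z y‖ * K) ^ m ≤ K ^ m := by gcongr
        _ ≤ K ^ n0 := pow_le_pow_right₀ hK (by simp at hm; omega)
    refine (Finset.sum_le_sum h2).trans ?_
    rw [Finset.sum_const, Finset.card_range, nsmul_eq_mul]
    push_cast
    exact le_rfl
  gcongr


/-- the multiplier turning `znew` into `F` -/
noncomputable def kap (i : ℕ) (y : ℝ) : ℂ :=
  -((2 : ℂ) ^ (i + 2))⁻¹ / (1 - y * Complex.I / (Mj (i + 1) : ℂ))

lemma continuous_kap (i : ℕ) : Continuous (kap i) := by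
  unfold kap
  apply Continuous.div (by fun_prop) (by fun_prop)
  exact one_sub_div_ne (i + 1)

lemma norm_kap_le (i : ℕ) (y : ℝ) : ‖kap i y‖ ≤ 1 := by
  unfold kap
  rw [norm_div, norm_neg, norm_inv, norm_pow, show ‖(2 : ℂ)‖ = 2 by simp]
  have h1 : 1 ≤ ‖(1 : ℂ) - y * Complex.I / (Mj (i + 1) : ℂ)‖ := by
    have : (1 : ℂ) - y * Complex.I / (Mj (i + 1) : ℂ) =
        ((1 : ℝ) : ℂ) - ((y / Mj (i + 1) : ℝ) : ℂ) * Complex.I := by
      push_cast; ring
    rw [this, norm_sub_I]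
    apply Real.le_sqrt_of_sq_le
    nlinarith [sq_nonneg (y / Mj (i + 1))]
  rw [div_le_one (by linarith)]
  refine le_trans ?_ h1
  rw [inv_le_one_iff₀]
  right
  exact one_le_pow₀ (by norm_num)

lemma F_eq_kap (T : ℕ → ℝ) (i : ℕ) (y : ℝ) :
    F T (i + 1) (y * Complex.I) = kap i y * zf T (i + 1) (y * Complex.I) := by
  unfold kap zf
  have h0 := one_sub_div_ne (i + 1) y
  have h1 : (2 : ℂ) ^ (i + 2) ≠ 0 := pow_ne_zero _ two_ne_zero
  have h2 : (2 : ℂ) ^ (i + 1 + 1) = 2 ^ (i + 2) := by ring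
  rw [h2]
  generalize (2 : ℂ) ^ (i + 2) = A at *
  generalize (1 : ℂ) - y * Complex.I / (Mj (i + 1) : ℂ) = B at *
  field_simp

lemma norm_F_le_one (T : ℕ → ℝ) (i : ℕ) (y : ℝ) (hy : Mj i ≤ y) :
    ‖F T i (y * Complex.I)‖ ≤ 1 := by
  have hy0 : 2 ≤ y := by linarith [Mj_ge i]
  have h2 : y ≤ ‖(1 : ℂ) - y * Complex.I‖ := by
    have := norm_sub_I (M := 1) (y := y)
    rw [Complex.ofReal_one] at this
    rw [this]
    apply Real.le_sqrt_of_sq_le
    nlinarith
  refine (norm_F_le T i y).trans ?_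
  rw [div_le_one (by linarith)]
  linarith

theorem exists_next {i : ℕ} (S : Stage i) : ∃ S' : Stage (i + 1), Next S S' := by
  classical
  set a : ℝ := Mj i with ha
  set b : ℝ := Mj (i + 1) with hb
  set b' : ℝ := Mj (i + 2) with hb'
  have hab : a < b := Mj_lt_succ i
  have hbb' : b < b' := Mj_lt_succ (i + 1)
  set K : ℝ := Kj i with hKdef
  set z : ℝ → ℂ := fun y => zf S.T i (y * Complex.I) with hz
  set Q : ℝ → ℂ := Qf S.T i with hQ
  set v : ℝ → ℂ := vf i with hv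
  have hK : 1 ≤ K := one_le_Kj i
  have hK0 : 0 < K := by linarith
  have hQv : ∀ y, Q y = v y * z y := Qf_eq _ _
  have hzc : Continuous z := continuous_zax _ _
  have hQc : Continuous Q := continuous_Qf _ _
  have hvc : Continuous v := continuous_vf _
  have hzb : ∀ y ∈ Icc b b', ‖z y‖ ≤ 1 / 128 := fun y hy =>
    norm_zf_le S.T i y (hab.le.trans hy.1)
  have hQb : ∀ y ∈ Icc b b', ‖Q y‖ ≤ 1 / 128 := fun y hy => norm_Qf_le S.T i y hy.1
  have hvb : ∀ y ∈ Icc b b', ‖v y‖ ≤ 2 := fun y _ => norm_vf_le i y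
  have hφ1 : ∀ t, 1 ≤ S.φ t := fun t =>
    (Real.one_le_exp (mul_nonneg S.hξ.le (abs_nonneg t))).trans (S.hexp t)
  have hφpos : ∀ t, 0 < S.φ t := fun t => by linarith [hφ1 t]
  have hdl := dl_pos i
  have hdl1 := dl_pos (i + 1)
  -- approximation at higher frequencies
  obtain ⟨Cb, hCb, happ⟩ := approx isOpen_half (differentiableOn_zf S.T i) S.hξ
    (lo := a) (hi := b') (a := a) (b := b) (a' := b) (b' := b') hab.le hbb' le_rfl hbb'.le
    hab.le le_rfl (fun y _ => by simp)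
    (fun y hy => lt_of_le_of_lt (norm_zf_le S.T i y hy.1) (by norm_num)) S.hC (half_pos hdl)
  have happ' : ∀ (n : ℕ) (t : ℝ), 2 ^ n * ‖G a b (fun y => S.C y * z y ^ n) t -
      G b b' (fun y => Cb y * z y ^ n) t‖ ≤ dl i / 2 * S.φ t := fun n t =>
    (happ n t).trans (by gcongr; exact S.hexp t)
  have hCb0 : ∀ t, ‖G b b' Cb t - G a b S.C t‖ ≤ dl i / 2 * S.φ t := by
    intro t
    have := happ' 0 t
    simp only [pow_zero, one_mul, mul_one] at this
    rwa [norm_sub_rev] at this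
  have hA1 : (1 : ℝ) ≤ 2 - (1 / 2) ^ i := by
    have : ((1 : ℝ) / 2) ^ i ≤ 1 := pow_le_one₀ (by norm_num) (by norm_num)
    linarith
  have hCbn : ∀ (n : ℕ) (t : ℝ), ‖G b b' (fun y => Cb y * z y ^ n) t‖ ≤
      (2 - (1 / 2) ^ i + dl i / 2) * S.φ t := by
    intro n t
    rcases n with _ | n
    · simp only [pow_zero, mul_one]
      have h1 := hCb0 t
      have h2 := S.hA t
      have h3 := norm_sub_norm_le (G b b' Cb t) (G a b S.C t)
      rw [add_mul]
      linarith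
    · have h1 := happ' (n + 1) t
      have h2 := S.hH n t
      have h4 : (1 : ℝ) ≤ 2 ^ (n + 1) := one_le_pow₀ (by norm_num)
      have h3 := norm_sub_norm_le (G b b' (fun y => Cb y * z y ^ (n + 1)) t)
        (G a b (fun y => S.C y * z y ^ (n + 1)) t)
      rw [norm_sub_rev] at h3
      have h5 : 2 ^ (n + 1) * ‖G b b' (fun y => Cb y * z y ^ (n + 1)) t‖ ≤
          (dl i + dl i / 2) * S.φ t := by
        have : 2 ^ (n + 1) * (‖G b b' (fun y => Cb y * z y ^ (n + 1)) t‖ -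
            ‖G a b (fun y => S.C y * z y ^ (n + 1)) t‖) ≤ 2 ^ (n + 1) *
            ‖G a b (fun y => S.C y * z y ^ (n + 1)) t - G b b' (fun y => Cb y * z y ^ (n + 1)) t‖ := by
          gcongr
        rw [mul_sub] at this
        rw [add_mul]
        linarith
      have h6 : ‖G b b' (fun y => Cb y * z y ^ (n + 1)) t‖ ≤
          2 ^ (n + 1) * ‖G b b' (fun y => Cb y * z y ^ (n + 1)) t‖ :=
        le_mul_of_one_le_left (norm_nonneg _) h4
      refine (h6.trans h5).trans ?_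
      have := dl_le i
      have := (hφpos t).le
      gcongr
      linarith
  set Kb : ℝ := ∫ y in b..b', ‖Cb y‖ with hKb
  have hKb0 : 0 ≤ Kb := intervalIntegral.integral_nonneg hbb'.le fun _ _ => norm_nonneg _
  obtain ⟨n0, hn0⟩ : ∃ n0 : ℕ, (1 / 4 : ℝ) ^ n0 * Kb ≤ dl (i + 1) / 4 := by
    have h1 : Tendsto (fun n : ℕ => (1 / 4 : ℝ) ^ n * Kb) atTop (𝓝 (0 * Kb)) :=
      (tendsto_pow_atTop_nhds_zero_of_lt_one (by norm_num) (by norm_num)).mul_const Kb
    rw [zero_mul] at h1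
    exact ((h1.eventually_lt_const (by positivity : (0 : ℝ) < dl (i + 1) / 4)).exists).imp
      fun n hn => hn.le
  set L : ℝ := ((n0 + 1) * K ^ n0) * Kb with hL
  have hL0 : 0 ≤ L := by positivity
  obtain ⟨N, hN⟩ : ∃ N : ℕ, ∀ n ≥ N, (1 / 64 : ℝ) ^ (n + 1) * L ≤ dl (i + 1) := by
    have h1 : Tendsto (fun n : ℕ => (1 / 64 : ℝ) ^ (n + 1) * L) atTop (𝓝 (0 * L)) :=
      ((tendsto_pow_atTop_nhds_zero_of_lt_one (by norm_num) (by norm_num)).comp
        (tendsto_add_atTop_nat 1)).mul_const L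
    rw [zero_mul] at h1
    obtain ⟨N, hN⟩ := eventually_atTop.1 (h1.eventually_lt_const hdl1)
    exact ⟨N, fun n hn => (hN n hn).le⟩
  -- eventual statements
  have E1 : ∀ᶠ T : ℝ in atTop, ∀ n ∈ Finset.range N, ∀ m' : ℕ, ∀ t : ℝ,
      ‖G b b' (fun y => znew Q v K T y ^ (n + 1) * chainC z Cb K T n0 y) t‖ ≤
        ((1 / 8 : ℝ) ^ n * ((1 / 4 : ℝ) ^ n0 * Kb) + dl (i + 1) / 2 ^ (n + 2)) *
          (K ^ m' * S.φ (t - m' * T)) := by
    rw [Filter.eventually_all_finset]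
    intro n _
    exact chain_power S.hξ S.hexp hbb'.le hK hzc hQc hvc hCb hQv hzb hQb hvb n (by positivity)
  have E2 : ∀ᶠ T : ℝ in atTop, ∀ m' : ℕ, ∀ t : ℝ,
      ‖G b b' (fun y => znew Q v K T y ^ (0 + 1) *
        chainC z (fun y => kap i y * Cb y) K T n0 y) t‖ ≤
        ((1 / 8 : ℝ) ^ 0 * ((1 / 4 : ℝ) ^ n0 * ∫ y in b..b', ‖kap i y * Cb y‖) + dl (i + 1) / 2) *
          (K ^ m' * S.φ (t - m' * T)) :=
    chain_power S.hξ S.hexp hbb'.le hK hzc hQc hvc ((continuous_kap i).mul hCb) hQv hzb hQb hvb 0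
      (by positivity)
  have E3 : ∀ᶠ T : ℝ in atTop, ∀ m' : ℕ, ∀ t : ℝ,
      ‖G b b' (fun y => ∑ m ∈ Finset.Icc (0 : ℤ) n0, chD z Cb m y * Yf K T y ^ m) t‖ ≤
        ((2 - (1 / 2) ^ i + dl i / 2) + dl i / 2) * (K ^ m' * S.φ (t - m' * T)) := by
    refine decouple S.hξ S.hexp hbb'.le hK _ _ (fun m _ => continuous_chD hzc hCb m)
      (by linarith) (fun m _ t => ?_) (half_pos hdl)
    have h1 : chD z Cb (m : ℤ) = fun y => Cb y * z y ^ m := by
      funext y; simp [chD]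
    rw [h1]
    exact hCbn m t
  have E4 : ∀ᶠ T : ℝ in atTop, ∀ t : ℝ,
      ‖G b b' (fun y => ∑ m ∈ Finset.Icc (1 : ℤ) n0, chD z Cb m y * Yf K T y ^ m) t‖ ≤
        dl i / 2 * S.φ t :=
    decouple0 S.hξ S.hexp hbb'.le hK _ (by simp) _ (fun m _ => continuous_chD hzc hCb m)
      (half_pos hdl)
  obtain ⟨τ, hE1, hE2, hE3, hE4, hτ1⟩ :=
    (E1.and (E2.and (E3.and (E4.and (eventually_ge_atTop (1 : ℝ)))))).exists
  have hτ0 : 0 < τ := by linarith
  set C' : ℝ → ℂ := chainC z Cb K τ n0 with hC'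
  have hC'c : Continuous C' := continuous_chainC hzc hCb K τ n0
  set T' : ℕ → ℝ := Function.update S.T i τ with hT'
  have hznew : ∀ y : ℝ, zf T' (i + 1) (y * Complex.I) = znew Q v K τ y := fun y =>
    zf_update S.T i τ y
  set I' : ℝ := ∫ y in b..b', ‖C' y‖ with hI'
  have hI'0 : 0 ≤ I' := intervalIntegral.integral_nonneg hbb'.le fun _ _ => norm_nonneg _
  have hI'L : I' ≤ L := by
    rw [hI', hL, hKb, ← intervalIntegral.integral_const_mul]
    exact intervalIntegral.integral_mono_on hbb'.le (hC'c.norm.intervalIntegrable _ _)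
      ((continuous_const.mul hCb.norm).intervalIntegrable _ _)
      fun y hy => norm_chainC_le hK τ n0 (hzb y hy)
  set ξ' : ℝ := min (S.ξ / 2) (Real.log K / τ) with hξ'
  have hlogK : 0 < Real.log K := Real.log_pos (by
    rw [hKdef, Kj]; linarith [Mj_ge i])
  have hξ'0 : 0 < ξ' := lt_min (half_pos S.hξ) (by positivity)
  have hξ'1 : ξ' ≤ S.ξ / 2 := min_le_left _ _
  have hξ'2 : ξ' * τ ≤ Real.log K := by
    have := min_le_right (S.ξ / 2) (Real.log K / τ)
    rw [← hξ', le_div_iff₀ hτ0] at this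
    exact this
  set Ac : ℝ := max 1 (I' / dl (i + 1)) with hAc
  have hAc1 : 1 ≤ Ac := le_max_left _ _
  have hAcI : I' ≤ dl (i + 1) * Ac := by
    have := le_max_right 1 (I' / dl (i + 1))
    rw [← hAc, div_le_iff₀ hdl1] at this
    linarith
  have hφ0 : ∀ t, 0 ≤ S.φ t := fun t => (hφpos t).le
  set φ' : ℝ → ℝ := valley S.φ K τ with hφ'
  have hexp' : ∀ t, Real.exp (ξ' * |t|) ≤ φ' t :=
    exp_le_valley S.hexp hK hτ0.le hξ'0.le (by linarith [S.hξ]) hξ'2
  -- sup bounds against the cap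
  have hsup : ∀ (D : ℝ → ℂ), Continuous D → (∀ y ∈ Icc b b', ‖D y‖ ≤ ‖C' y‖) → ∀ t,
      ‖G b b' D t‖ ≤ dl (i + 1) * (Ac * Real.exp (ξ' * |t|)) := by
    intro D hD hDC t
    have h1 : ‖G b b' D t‖ ≤ I' := norm_G_le_of_le hbb'.le hD hC'c.norm hDC t
    have h2 : (1 : ℝ) ≤ Real.exp (ξ' * |t|) := Real.one_le_exp (by positivity)
    calc ‖G b b' D t‖ ≤ dl (i + 1) * Ac := h1.trans hAcI
      _ ≤ dl (i + 1) * (Ac * Real.exp (ξ' * |t|)) := by
        have : Ac ≤ Ac * Real.exp (ξ' * |t|) := le_mul_of_one_le_right (by linarith) h2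
        gcongr
  have hzn : ∀ y ∈ Icc b b', ‖znew Q v K τ y‖ ≤ 1 / 128 := fun y hy => by
    rw [← hznew]
    exact norm_zf_le T' (i + 1) y hy.1
  have hzncont : Continuous (znew Q v K τ) := by
    have : znew Q v K τ = fun y : ℝ => zf T' (i + 1) (y * Complex.I) := by
      funext y; exact (hznew y).symm
    rw [this]
    exact continuous_zax _ _
  refine ⟨{ φ := cap φ' Ac ξ'
            ξ := ξ'
            T := T'
            C := C'
            hξ := hξ'0
            hξ2 := ?_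
            hexp := exp_le_cap hAc1 hexp'
            hcap := ⟨Ac, fun t => min_le_right _ _⟩
            hφ0 := fun t => (min_le_left _ _).trans
              ((valley_le_self hφ0 hK0.le t).trans (S.hφ0 t))
            hsub := cap_submult hAc1 hξ'0.le hexp' (valley_submult hφ0 hK0.le S.hsub)
            hmeas := (measurable_valley S.hmeas).min (by fun_prop)
            hT := ?_
            hT0 := ?_
            hC := hC'c
            hA := ?_
            hH := ?_
            hF := ?_ }, ?_⟩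
  · calc ξ' ≤ S.ξ / 2 := hξ'1
      _ ≤ (1 / 2) ^ (i + 1) / 2 := by linarith [S.hξ2]
      _ = (1 / 2) ^ (i + 1 + 1) := by ring
  · intro j hj u
    have h1 : ∀ t, cap φ' Ac ξ' t ≤ φ' t := fun t => min_le_left _ _
    rcases Nat.lt_succ_iff_lt_or_eq.1 hj with h | h
    · rw [hT', Function.update_of_ne (by omega)]
      exact (h1 _).trans ((valley_le_self hφ0 hK0.le _).trans (S.hT j h u))
    · subst h
      rw [hT', Function.update_self]
      refine (h1 _).trans ((valley_le hφ0 hK0.le _ 1).trans ?_)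
      have h2 : τ + u - ((1 : ℕ) : ℝ) * τ = u := by push_cast; ring
      rw [h2, pow_one]
      have h3 := S.hφ0 u
      gcongr
  · intro j hj
    rcases Nat.lt_succ_iff_lt_or_eq.1 hj with h | h
    · rw [hT', Function.update_of_ne (by omega)]
      exact S.hT0 j h
    · subst h
      rw [hT', Function.update_self]
      exact hτ0.le
  · intro t
    have hpow : ((1 : ℝ) / 2) ^ (i + 1) = (1 / 2) ^ i / 2 := by ring
    have hi0 : (0 : ℝ) < (1 / 2) ^ i := by positivity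
    have hB : dl (i + 1) ≤ 2 - (1 / 2) ^ (i + 1) := by
      have := dl_le (i + 1)
      rw [hpow]
      linarith
    have hdli : dl i = (1 / 2) ^ i / 8 := by unfold dl; ring
    refine le_mul_cap (by linarith) ?_ ?_
    · apply le_mul_valley (by linarith)
      intro m
      have h1 := hE3 m t
      have h2 : G b b' C' t =
          G b b' (fun y => ∑ m ∈ Finset.Icc (0 : ℤ) n0, chD z Cb m y * Yf K τ y ^ m) t :=
        G_congr (fun y => chainC_eq z Cb K τ n0 y) t
      rw [h2]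
      refine h1.trans ?_
      have h3 : 0 ≤ K ^ m * S.φ (t - m * τ) := mul_nonneg (by positivity) (hφ0 _)
      apply mul_le_mul_of_nonneg_right _ h3
      rw [hpow, hdli]
      linarith
    · refine (hsup C' hC'c (fun y _ => le_rfl) t).trans ?_
      have : 0 ≤ Ac * Real.exp (ξ' * |t|) := by positivity
      gcongr
  · intro n t
    have hcongr : G b b' (fun y => C' y * zf T' (i + 1) (y * Complex.I) ^ (n + 1)) t =
        G b b' (fun y => znew Q v K τ y ^ (n + 1) * chainC z Cb K τ n0 y) t :=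
      G_congr (fun y => by rw [hznew, mul_comm]) t
    change 2 ^ (n + 1) * ‖G b b' (fun y => C' y * zf T' (i + 1) (y * Complex.I) ^ (n + 1)) t‖ ≤ _
    rw [hcongr]
    -- crude bound
    have hcrude : 2 ^ (n + 1) *
        ‖G b b' (fun y => znew Q v K τ y ^ (n + 1) * chainC z Cb K τ n0 y) t‖ ≤
          (1 / 64 : ℝ) ^ (n + 1) * I' := by
      have h1 : ‖G b b' (fun y => znew Q v K τ y ^ (n + 1) * chainC z Cb K τ n0 y) t‖ ≤
          ∫ y in b..b', (1 / 128 : ℝ) ^ (n + 1) * ‖C' y‖ := by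
        refine norm_G_le_of_le hbb'.le ((hzncont.pow _).mul hC'c)
          (continuous_const.mul hC'c.norm) (fun y hy => ?_) t
        change ‖znew Q v K τ y ^ (n + 1) * C' y‖ ≤ (1 / 128 : ℝ) ^ (n + 1) * ‖C' y‖
        rw [norm_mul, norm_pow]
        have := hzn y hy
        gcongr
      rw [intervalIntegral.integral_const_mul] at h1
      calc _ ≤ (2 : ℝ) ^ (n + 1) * ((1 / 128 : ℝ) ^ (n + 1) * I') := by gcongr
        _ = _ := by rw [← mul_assoc, ← mul_pow]; norm_num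
    refine le_mul_cap hdl1.le ?_ ?_
    · by_cases hn : n < N
      · apply le_mul_valley hdl1.le
        intro m
        have h1 := hE1 n (by simpa using hn) m t
        have h3 : 0 ≤ K ^ m * S.φ (t - m * τ) := mul_nonneg (by positivity) (hφ0 _)
        calc _ ≤ 2 ^ (n + 1) * (((1 / 8 : ℝ) ^ n * ((1 / 4 : ℝ) ^ n0 * Kb) +
              dl (i + 1) / 2 ^ (n + 2)) * (K ^ m * S.φ (t - m * τ))) := by gcongr
          _ = (2 * (1 / 4 : ℝ) ^ n * ((1 / 4 : ℝ) ^ n0 * Kb) + dl (i + 1) / 2) *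
              (K ^ m * S.φ (t - m * τ)) := by
            have e1 : (1 / 4 : ℝ) ^ n = 2 ^ n * (1 / 8) ^ n := by
              rw [← mul_pow]; norm_num
            rw [e1, ← mul_assoc]
            congr 1
            rw [pow_succ, pow_succ, pow_succ]
            field_simp
          _ ≤ (2 * 1 * (dl (i + 1) / 4) + dl (i + 1) / 2) * (K ^ m * S.φ (t - m * τ)) := by
            have e2 : (1 / 4 : ℝ) ^ n ≤ 1 := pow_le_one₀ (by norm_num) (by norm_num)
            gcongr
          _ = dl (i + 1) * (K ^ m * S.φ (t - m * τ)) := by ring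
      · push Not at hn
        refine hcrude.trans ?_
        have h1 := hN n hn
        have h2 : (1 : ℝ) ≤ φ' t := (Real.one_le_exp (by positivity)).trans (hexp' t)
        calc (1 / 64 : ℝ) ^ (n + 1) * I' ≤ (1 / 64 : ℝ) ^ (n + 1) * L := by gcongr
          _ ≤ dl (i + 1) := h1
          _ ≤ dl (i + 1) * φ' t := le_mul_of_one_le_right hdl1.le h2
    · refine hcrude.trans ?_
      have h2 : (1 : ℝ) ≤ Real.exp (ξ' * |t|) := Real.one_le_exp (by positivity)
      have h3 : (1 / 64 : ℝ) ^ (n + 1) ≤ 1 := pow_le_one₀ (by norm_num) (by norm_num)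
      calc (1 / 64 : ℝ) ^ (n + 1) * I' ≤ 1 * I' := by gcongr
        _ ≤ dl (i + 1) * Ac := by linarith
        _ ≤ dl (i + 1) * (Ac * Real.exp (ξ' * |t|)) := by
          have : Ac ≤ Ac * Real.exp (ξ' * |t|) := le_mul_of_one_le_right (by linarith) h2
          gcongr
  · intro t
    refine le_mul_cap hdl1.le ?_ ?_
    · apply le_mul_valley hdl1.le
      intro m
      have h1 := hE2 m t
      have hcongr : G b b' (fun y => C' y * F T' (i + 1) (y * Complex.I)) t =
          G b b' (fun y => znew Q v K τ y ^ (0 + 1) *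
            chainC z (fun y => kap i y * Cb y) K τ n0 y) t := by
        refine G_congr (fun y => ?_) t
        rw [F_eq_kap, hznew, hC']
        unfold chainC
        ring
      have h3 : 0 ≤ K ^ m * S.φ (t - m * τ) := mul_nonneg (by positivity) (hφ0 _)
      change ‖G b b' (fun y => C' y * F T' (i + 1) (y * Complex.I)) t‖ ≤ _
      rw [hcongr]
      refine h1.trans ?_
      apply mul_le_mul_of_nonneg_right _ h3
      have h4 : ∫ y in b..b', ‖kap i y * Cb y‖ ≤ Kb := by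
        rw [hKb]
        refine intervalIntegral.integral_mono_on hbb'.le
          (((continuous_kap i).mul hCb).norm.intervalIntegrable _ _)
          (hCb.norm.intervalIntegrable _ _) fun y _ => ?_
        rw [norm_mul]
        exact mul_le_of_le_one_left (norm_nonneg _) (norm_kap_le i y)
      have h5 : (1 / 4 : ℝ) ^ n0 * ∫ y in b..b', ‖kap i y * Cb y‖ ≤ (1 / 4 : ℝ) ^ n0 * Kb := by
        gcongr
      rw [pow_zero, one_mul]
      linarith
    · refine hsup _ (hC'c.mul (continuous_Fax T' (i + 1))) (fun y hy => ?_) t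
      change ‖C' y * F T' (i + 1) (y * Complex.I)‖ ≤ ‖C' y‖
      rw [norm_mul]
      exact mul_le_of_le_one_right (norm_nonneg _) (norm_F_le_one T' (i + 1) y hy.1)
  · refine ⟨?_, ?_, ?_⟩
    · intro j hj
      change T' j = S.T j
      rw [hT', Function.update_of_ne (by omega)]
    · intro t
      exact (min_le_left _ _).trans (valley_le_self hφ0 hK0.le t)
    · intro t
      change ‖G b b' C' t - G a b S.C t‖ ≤ dl i * S.φ t
      have h1 : G b b' C' t = G b b' Cb t +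
          G b b' (fun y => ∑ m ∈ Finset.Icc (1 : ℤ) n0, chD z Cb m y * Yf K τ y ^ m) t := by
        have hcs : Continuous fun y => ∑ m ∈ Finset.Icc (1 : ℤ) n0, chD z Cb m y * Yf K τ y ^ m :=
          continuous_finsetSum _ fun m _ => (continuous_chD hzc hCb m).mul (continuous_Yf_zpow τ m)
        rw [← G_add b b' hCb hcs]
        exact G_congr (fun y => chainC_eq' z Cb K τ n0 y) t
      rw [h1]
      have h2 := hE4 t
      have h3 := hCb0 t
      have h4 := norm_add_le (G b b' Cb t - G a b S.C t)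
        (G b b' (fun y => ∑ m ∈ Finset.Icc (1 : ℤ) n0, chD z Cb m y * Yf K τ y ^ m) t)
      have h5 : G b b' Cb t +
          G b b' (fun y => ∑ m ∈ Finset.Icc (1 : ℤ) n0, chD z Cb m y * Yf K τ y ^ m) t -
          G a b S.C t = (G b b' Cb t - G a b S.C t) +
          G b b' (fun y => ∑ m ∈ Finset.Icc (1 : ℤ) n0, chD z Cb m y * Yf K τ y ^ m) t := by ring
      rw [h5]
      linarith

end Pool.Agent.Helper44.WT
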