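import Pool.Agent.Helper44.WT.Kern

/-!
# The transform of `f`
-/

namespace Pool.Agent.Helper44.WT

open MeasureTheory Filter Set Topology

lemma norm_one_sub_pos' {lam : ℂ} (h : lam.re ≤ 0) : 0 < ‖(1 : ℂ) - lam‖ := by
  rw [norm_pos_iff]
  have := ne_of_re (M := 1) (lam := lam) (by linarith)
  simpa using this

lemma norm_sub_ge {M : ℝ} (hM : 1 ≤ M) {lam : ℂ} (h : lam.re ≤ 0) :
    ‖(1 : ℂ) - lam‖ ≤ ‖(M : ℂ) - lam‖ := by
  rw [Complex.norm_def, Complex.norm_def]
  apply Real.sqrt_le_sqrt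
  rw [Complex.normSq_apply, Complex.normSq_apply]
  simp only [Complex.sub_re, Complex.sub_im, Complex.one_re, Complex.one_im, Complex.ofReal_re,
    Complex.ofReal_im]
  nlinarith

lemma norm_kt_succ_le {lam : ℂ} (h : lam.re ≤ 0) (j : ℕ) :
    ‖kt (j + 1) lam‖ ≤ wj j / ‖(1 : ℂ) - lam‖ := by
  unfold kt
  rw [norm_div, norm_mul, Complex.norm_real, Real.norm_eq_abs, abs_of_pos (wj_pos j)]
  have h1 : ‖Complex.exp (lam * (tj j : ℂ))‖ ≤ 1 := by
    rw [Complex.norm_exp, Real.exp_le_one_iff]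
    simp only [Complex.mul_re, Complex.ofReal_re, Complex.ofReal_im, mul_zero, sub_zero]
    exact mul_nonpos_of_nonpos_of_nonneg h (tj_nonneg j)
  have h2 := norm_sub_ge (one_le_Mj j) h
  have h3 := norm_one_sub_pos' h
  have h4 := wj_pos j
  calc wj j * ‖Complex.exp (lam * (tj j : ℂ))‖ / ‖(Mj j : ℂ) - lam‖ ≤
      wj j * 1 / ‖(1 : ℂ) - lam‖ := by gcongr
    _ = _ := by rw [mul_one]

lemma norm_sum_kt {lam : ℂ} (h : lam.re ≤ 0) (i : ℕ) :
    ‖∑ n ∈ Finset.range (i + 1), kt n lam - 1 / (1 - lam)‖ ≤ (1 / 2) / ‖(1 : ℂ) - lam‖ := by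
  rw [Finset.sum_range_succ']
  have h0 : kt 0 lam = 1 / (1 - lam) := rfl
  rw [h0, add_sub_cancel_right]
  refine (norm_sum_le _ _).trans ((Finset.sum_le_sum fun j _ => norm_kt_succ_le h j).trans ?_)
  rw [← Finset.sum_div]
  have h1 := (sum_wj_lt i).le
  have h3 := norm_one_sub_pos' h
  gcongr

/-- the transform of `f` at `s = -λ` -/
noncomputable def fT (lam : ℂ) : ℂ := ∫ s : ℝ, (fr s : ℂ) * Complex.exp (lam * s)

lemma integrable_fr : Integrable fr := by
  refine Integrable.mono' integrable_fr_phi measurable_fr.aestronglyMeasurable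
    (Filter.Eventually.of_forall fun s => ?_)
  rw [Real.norm_eq_abs, abs_of_nonneg (fr_nonneg s)]
  exact le_mul_of_one_le_right (fr_nonneg s) (one_le_phi s)

lemma tendsto_fT {lam : ℂ} (h : lam.re ≤ 0) :
    Tendsto (fun i => ∑ n ∈ Finset.range (i + 1), kt n lam) atTop (𝓝 (fT lam)) := by
  have h1 : Tendsto (fun i => ∫ s : ℝ, (fp i s : ℂ) * Complex.exp (lam * s)) atTop
      (𝓝 (fT lam)) := by
    refine tendsto_integral_of_dominated_convergence (fun s => fr s) ?_ ?_ ?_ ?_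
    · intro i
      have h2 : Measurable (fun s : ℝ => Complex.exp (lam * s)) := by fun_prop
      exact ((measurable_fp i).complex_ofReal.mul h2).aestronglyMeasurable
    · exact integrable_fr
    · intro i
      refine Filter.Eventually.of_forall fun s => ?_
      rcases le_or_gt s 0 with hs | hs
      · have : fp i s = 0 := by unfold fp; simp [kk_of_nonpos _ hs]
        rw [this, fr_of_nonpos hs]
        simp
      · rw [norm_mul, Complex.norm_real, Real.norm_eq_abs, abs_of_nonneg (fp_nonneg i s)]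
        have h3 : ‖Complex.exp (lam * (s : ℂ))‖ ≤ 1 := by
          rw [Complex.norm_exp, Real.exp_le_one_iff]
          simp only [Complex.mul_re, Complex.ofReal_re, Complex.ofReal_im, mul_zero, sub_zero]
          exact mul_nonpos_of_nonpos_of_nonneg h hs.le
        have h4 := fp_le_fr i s
        have h5 := fp_nonneg i s
        calc fp i s * ‖Complex.exp (lam * (s : ℂ))‖ ≤ fp i s * 1 := by gcongr
          _ ≤ fr s := by rw [mul_one]; exact h4
    · refine Filter.Eventually.of_forall fun s => ?_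
      have h7 : Tendsto (fun i => (fp i s : ℂ)) atTop (𝓝 (fr s : ℂ)) :=
        (Complex.continuous_ofReal.tendsto _).comp (tendsto_fp s)
      exact h7.mul_const _
  refine h1.congr fun i => ?_
  have h2 : ∀ s : ℝ, (fp i s : ℂ) * Complex.exp (lam * s) =
      ∑ n ∈ Finset.range (i + 1), (kk n s : ℂ) * Complex.exp (lam * s) := by
    intro s
    unfold fp
    push_cast
    rw [Finset.sum_mul]
  simp_rw [h2]
  rw [integral_finsetSum _ fun n _ => integrable_kk_cexp n (by linarith : lam.re < 1)]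
  exact Finset.sum_congr rfl fun n _ => integral_kk_cexp n (by linarith : lam.re < 1)

lemma norm_fT_sub {lam : ℂ} (h : lam.re ≤ 0) :
    ‖fT lam - 1 / (1 - lam)‖ ≤ (1 / 2) / ‖(1 : ℂ) - lam‖ :=
  le_of_tendsto ((tendsto_fT h).sub_const _).norm
    (Filter.Eventually.of_forall fun i => norm_sum_kt h i)

lemma le_norm_fT {lam : ℂ} (h : lam.re ≤ 0) : (1 / 2) / ‖(1 : ℂ) - lam‖ ≤ ‖fT lam‖ := by
  have h1 := norm_fT_sub h
  have h2 : ‖(1 : ℂ) / (1 - lam)‖ = 1 / ‖(1 : ℂ) - lam‖ := by rw [norm_div, norm_one]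
  have h3 := norm_sub_norm_le ((1 : ℂ) / (1 - lam)) (fT lam)
  rw [norm_sub_rev, h2] at h3
  have h4 : (1 : ℝ) / ‖(1 : ℂ) - lam‖ = (1 / 2) / ‖(1 : ℂ) - lam‖ + (1 / 2) / ‖(1 : ℂ) - lam‖ := by
    ring
  linarith

lemma norm_fT_le {lam : ℂ} (h : lam.re ≤ 0) : ‖fT lam‖ ≤ (3 / 2) / ‖(1 : ℂ) - lam‖ := by
  have h1 := norm_fT_sub h
  have h2 : ‖(1 : ℂ) / (1 - lam)‖ = 1 / ‖(1 : ℂ) - lam‖ := by rw [norm_div, norm_one]
  have h3 := norm_sub_norm_le (fT lam) ((1 : ℂ) / (1 - lam))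
  rw [h2] at h3
  have h4 : (3 / 2 : ℝ) / ‖(1 : ℂ) - lam‖ = (1 / 2) / ‖(1 : ℂ) - lam‖ + 1 / ‖(1 : ℂ) - lam‖ := by
    ring
  linarith

lemma abs_log_fT {y : ℝ} (hy : y ≤ 0) :
    |Real.log ‖fT (y : ℂ)‖| ≤ Real.log (2 * (1 - y)) := by
  have hre : ((y : ℂ)).re ≤ 0 := by simpa using hy
  have hN : ‖(1 : ℂ) - (y : ℂ)‖ = 1 - y := by
    rw [← Complex.ofReal_one, ← Complex.ofReal_sub, Complex.norm_real, Real.norm_eq_abs,
      abs_of_pos (by linarith)]
  have h1 := le_norm_fT hre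
  have h2 := norm_fT_le hre
  rw [hN] at h1 h2
  have h3 : (0 : ℝ) < 1 - y := by linarith
  have h5 : 0 < (1 / 2 : ℝ) / (1 - y) := by positivity
  have h6 : 0 < ‖fT (y : ℂ)‖ := lt_of_lt_of_le h5 h1
  rw [abs_le]
  constructor
  · have h7 : -Real.log (2 * (1 - y)) = Real.log ((1 / 2 : ℝ) / (1 - y)) := by
      rw [← Real.log_inv]
      congr 1
      field_simp
    rw [h7]
    exact Real.log_le_log h5 h1
  · refine Real.log_le_log h6 (h2.trans ?_)
    rw [div_le_iff₀ h3]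
    nlinarith

lemma tendsto_log_fT :
    Tendsto (fun y : ℝ => Real.log ‖fT (y : ℂ)‖ / |y|) atBot (𝓝 0) := by
  have h1 : Tendsto (fun x : ℝ => Real.log x / x) atTop (𝓝 0) :=
    Real.isLittleO_log_id_atTop.tendsto_div_nhds_zero
  have h2 : Tendsto (fun y : ℝ => 2 * (1 - y)) atBot atTop := by
    apply Tendsto.const_mul_atTop (by norm_num)
    have : Tendsto (fun y : ℝ => 1 + -y) atBot atTop :=
      tendsto_atTop_add_const_left _ _ tendsto_neg_atBot_atTop
    exact this.congr fun y => (sub_eq_add_neg 1 y).symm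
  have h3 := h1.comp h2
  have h4 : Tendsto (fun y : ℝ => Real.log (2 * (1 - y)) / (2 * (1 - y)) * 4) atBot (𝓝 0) := by
    have := h3.mul_const 4
    simpa using this
  refine squeeze_zero_norm' ?_ h4
  filter_upwards [eventually_le_atBot (-1 : ℝ)] with y hy
  have h5 := abs_log_fT (y := y) (by linarith)
  have h6 : 0 < |y| := by rw [abs_of_neg (by linarith)]; linarith
  have h7 : |y| = -y := abs_of_neg (by linarith)
  rw [norm_div, Real.norm_eq_abs, Real.norm_eq_abs, abs_abs, h7]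
  have h8 : 0 ≤ Real.log (2 * (1 - y)) := (abs_nonneg _).trans h5
  rw [div_le_iff₀ (by linarith)]
  have h9 : Real.log (2 * (1 - y)) / (2 * (1 - y)) * 4 * -y =
      Real.log (2 * (1 - y)) * (4 * (-y) / (2 * (1 - y))) := by
    have : (2 * (1 - y)) ≠ 0 := by
      have : 0 < 2 * (1 - y) := by linarith
      exact this.ne'
    field_simp
  rw [h9]
  have h10 : 1 ≤ 4 * (-y) / (2 * (1 - y)) := by
    rw [le_div_iff₀ (by linarith)]
    linarith
  nlinarith

end Pool.Agent.Helper44.WT
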