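import Pool.Agent.Helper44.WT.Params

/-!
# Modification of weights
-/

namespace Pool.Agent.Helper44.WT

open MeasureTheory Filter Set Topology

/-- insertion of a valley of depth `K` at `τ` -/
noncomputable def valley (φ : ℝ → ℝ) (K τ : ℝ) (t : ℝ) : ℝ := ⨅ m : ℕ, K ^ m * φ (t - m * τ)

section
variable {φ : ℝ → ℝ} {K τ : ℝ}

lemma bddBelow_valley (hφ : ∀ t, 0 ≤ φ t) (hK : 0 ≤ K) (t : ℝ) :
    BddBelow (Set.range fun m : ℕ => K ^ m * φ (t - m * τ)) :=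
  ⟨0, by rintro _ ⟨m, rfl⟩; exact mul_nonneg (pow_nonneg hK m) (hφ _)⟩

lemma valley_le (hφ : ∀ t, 0 ≤ φ t) (hK : 0 ≤ K) (t : ℝ) (m : ℕ) :
    valley φ K τ t ≤ K ^ m * φ (t - m * τ) :=
  ciInf_le (bddBelow_valley hφ hK t) m

lemma valley_le_self (hφ : ∀ t, 0 ≤ φ t) (hK : 0 ≤ K) (t : ℝ) : valley φ K τ t ≤ φ t := by
  simpa using valley_le hφ hK (τ := τ) t 0

lemma le_mul_valley {A x t : ℝ} (hA : 0 ≤ A)
    (h : ∀ m : ℕ, x ≤ A * (K ^ m * φ (t - m * τ))) : x ≤ A * valley φ K τ t := by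
  unfold valley
  rw [Real.mul_iInf_of_nonneg hA]
  exact le_ciInf h

lemma le_valley {x t : ℝ} (h : ∀ m : ℕ, x ≤ K ^ m * φ (t - m * τ)) : x ≤ valley φ K τ t :=
  le_ciInf h

lemma valley_nonneg (hφ : ∀ t, 0 ≤ φ t) (hK : 0 ≤ K) (t : ℝ) : 0 ≤ valley φ K τ t :=
  le_valley fun m => mul_nonneg (pow_nonneg hK m) (hφ _)

lemma valley_submult (hφ : ∀ t, 0 ≤ φ t) (hK : 0 ≤ K) (hsub : ∀ s t, φ (s + t) ≤ φ s * φ t)
    (s t : ℝ) : valley φ K τ (s + t) ≤ valley φ K τ s * valley φ K τ t := by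
  rw [mul_comm]
  apply le_mul_valley (valley_nonneg hφ hK t)
  intro m
  rw [mul_comm]
  apply le_mul_valley (mul_nonneg (pow_nonneg hK m) (hφ _))
  intro n
  refine (valley_le hφ hK (s + t) (m + n)).trans ?_
  have h1 := hsub (s - m * τ) (t - n * τ)
  have h2 : s + t - ((m + n : ℕ) : ℝ) * τ = s - m * τ + (t - n * τ) := by push_cast; ring
  rw [h2, pow_add]
  calc K ^ m * K ^ n * φ (s - m * τ + (t - n * τ))
      ≤ K ^ m * K ^ n * (φ (s - m * τ) * φ (t - n * τ)) := by gcongr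
    _ = _ := by ring

lemma exp_le_valley {ξ ξ' : ℝ} (hexp : ∀ t, Real.exp (ξ * |t|) ≤ φ t) (hK : 1 ≤ K)
    (hτ : 0 ≤ τ) (hξ' : 0 ≤ ξ') (h1 : ξ' ≤ ξ) (h2 : ξ' * τ ≤ Real.log K) (t : ℝ) :
    Real.exp (ξ' * |t|) ≤ valley φ K τ t := by
  apply le_valley
  intro m
  have hK0 : 0 < K := by linarith
  calc Real.exp (ξ' * |t|) ≤ Real.exp (m * Real.log K + ξ * |t - m * τ|) := by
        apply Real.exp_le_exp.2
        have h3 : |t| ≤ |(m : ℝ) * τ| + |t - m * τ| := by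
          have := abs_add_le ((m : ℝ) * τ) (t - m * τ)
          rwa [add_sub_cancel] at this
        have h4 : |(m : ℝ) * τ| = m * τ := abs_of_nonneg (by positivity)
        rw [h4] at h3
        have h5 : ξ' * |t| ≤ ξ' * (m * τ + |t - m * τ|) := by gcongr
        have h6 : ξ' * |t - m * τ| ≤ ξ * |t - m * τ| := by gcongr
        have h7 : (m : ℝ) * (ξ' * τ) ≤ m * Real.log K := by gcongr
        nlinarith
    _ = K ^ m * Real.exp (ξ * |t - m * τ|) := by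
        rw [Real.exp_add, ← Real.log_pow, Real.exp_log (by positivity)]
    _ ≤ K ^ m * φ (t - m * τ) := by gcongr; exact hexp _

lemma measurable_valley (hm : Measurable φ) : Measurable (valley φ K τ) := by
  unfold valley
  apply Measurable.iInf
  intro m
  fun_prop

end

/-- the cap -/
noncomputable def cap (φ : ℝ → ℝ) (A ξ : ℝ) (t : ℝ) : ℝ := min (φ t) (A * Real.exp (ξ * |t|))

lemma cap_submult {φ : ℝ → ℝ} {A ξ : ℝ} (hA : 1 ≤ A) (hξ : 0 ≤ ξ)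
    (hexp : ∀ t, Real.exp (ξ * |t|) ≤ φ t)
    (hsub : ∀ s t, φ (s + t) ≤ φ s * φ t) (s t : ℝ) :
    cap φ A ξ (s + t) ≤ cap φ A ξ s * cap φ A ξ t := by
  have hφ0 : ∀ t, 0 < φ t := fun t => (Real.exp_pos _).trans_le (hexp t)
  have hadd : Real.exp (ξ * |s + t|) ≤ Real.exp (ξ * |s|) * Real.exp (ξ * |t|) := by
    rw [← Real.exp_add]
    apply Real.exp_le_exp.2
    nlinarith [abs_add_le s t]
  have es := Real.exp_pos (ξ * |s|)
  have et := Real.exp_pos (ξ * |t|)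
  have hA0 : 0 < A := by linarith
  unfold cap
  rcases min_cases (φ s) (A * Real.exp (ξ * |s|)) with ⟨h1, _⟩ | ⟨h1, _⟩ <;>
  rcases min_cases (φ t) (A * Real.exp (ξ * |t|)) with ⟨h2, _⟩ | ⟨h2, _⟩ <;> rw [h1, h2]
  · exact (min_le_left _ _).trans (hsub s t)
  · refine (min_le_right _ _).trans ?_
    calc A * Real.exp (ξ * |s + t|) ≤ A * (Real.exp (ξ * |s|) * Real.exp (ξ * |t|)) := by gcongr
      _ = Real.exp (ξ * |s|) * (A * Real.exp (ξ * |t|)) := by ring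
      _ ≤ φ s * (A * Real.exp (ξ * |t|)) := by gcongr; exact hexp s
  · refine (min_le_right _ _).trans ?_
    calc A * Real.exp (ξ * |s + t|) ≤ A * (Real.exp (ξ * |s|) * Real.exp (ξ * |t|)) := by gcongr
      _ = (A * Real.exp (ξ * |s|)) * Real.exp (ξ * |t|) := by ring
      _ ≤ (A * Real.exp (ξ * |s|)) * φ t := by gcongr; exact hexp t
  · refine (min_le_right _ _).trans ?_
    calc A * Real.exp (ξ * |s + t|) ≤ A * (Real.exp (ξ * |s|) * Real.exp (ξ * |t|)) := by gcongr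
      _ ≤ A * A * (Real.exp (ξ * |s|) * Real.exp (ξ * |t|)) := by
        have : A ≤ A * A := by nlinarith
        gcongr
      _ = _ := by ring

lemma exp_le_cap {φ : ℝ → ℝ} {A ξ : ℝ} (hA : 1 ≤ A)
    (hexp : ∀ t, Real.exp (ξ * |t|) ≤ φ t) (t : ℝ) : Real.exp (ξ * |t|) ≤ cap φ A ξ t :=
  le_min (hexp t) (le_mul_of_one_le_left (Real.exp_pos _).le hA)

lemma le_mul_cap {φ : ℝ → ℝ} {A ξ B x t : ℝ} (hB : 0 ≤ B) (h1 : x ≤ B * φ t)
    (h2 : x ≤ B * (A * Real.exp (ξ * |t|))) : x ≤ B * cap φ A ξ t := by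
  unfold cap
  rw [mul_min_of_nonneg _ _ hB]
  exact le_min h1 h2

end Pool.Agent.Helper44.WT
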